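import Pool.Agent.H492.RZ.Stm

/-!
# The regularized values form a character of the shuffle product
-/

set_option autoImplicit false

open Filter Topology

namespace Pool.Agent.H492.RZ.SMulAux

open Pool.Agent.Y119.ML (adm adm_tail adm_none)
open Pool.Agent.Q189.HL (sh adm_sh)
open Pool.Agent.Q189.MV
open Pool.Agent.Q189.MV.DSh
open Pool.Agent.Q187.ZD.DS (Z InH0 InH1 total shuffles reg)

/-- the asymptotic expansion of a word, with an error smaller than all powers of the logarithm -/
theorem asym_pow (m n : ℕ) {u : List (Option (Fin 1))} (hu : adm u) (hu0 : u ≠ []) :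
    Tendsto (fun t => V [o1] (1 - t) ^ m *
      (V (List.replicate n o1 ++ none :: u) (1 - t) - (Pw n u).eval (V [o1] (1 - t)))) (𝓝[>] 0) (𝓝 0) := by
  have h1 : Tendsto (fun t => ∑ i ∈ Finset.range (n + 1),
      -(((m + (n - i)).factorial / (n - i).factorial : ℝ) * ((-1) ^ i * (((sh (List.replicate i o1) u).map fun r =>
      V (List.replicate (m + (n - i)) o1) (1 - t) * (LV (none :: r) - V (none :: r) (1 - t))).sum)))) (𝓝[>] 0) (𝓝 0) := by
    refine (?_ : Tendsto _ _ (𝓝 (∑ i ∈ Finset.range (n + 1), (0 : ℝ)))).trans (by simp)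
    refine tendsto_finsetSum _ fun i _ => ?_
    have h2 := _root_.tendsto_list_sum (sh (List.replicate i o1) u) (f := fun r t =>
      V (List.replicate (m + (n - i)) o1) (1 - t) * (LV (none :: r) - V (none :: r) (1 - t))) (a := fun _ => 0)
      (x := 𝓝[>] (0 : ℝ))
      (fun r hr => V_rem (adm_ones _) (adm_sh_none (adm_ones i) hu (Or.inr hu0) r hr))
    have h3 := ((h2.const_mul ((-1 : ℝ) ^ i)).const_mul ((m + (n - i)).factorial / (n - i).factorial : ℝ)).neg
    simpa using h3
  refine h1.congr' ?_
  have h4 : ∀ᶠ y in 𝓝[>] (0 : ℝ), y < 1 := (eventually_lt_nhds one_pos).filter_mono nhdsWithin_le_nhds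
  filter_upwards [h4, self_mem_nhdsWithin] with t ht1 ht
  have ht0 : (0 : ℝ) < t := ht
  have hy : |1 - t| < 1 := by
    rw [abs_lt]
    constructor <;> linarith
  rw [V_rep n hu hu0 (show (0 : ℝ) < 1 - t by linarith) (by linarith), Pw_eval]
  unfold Rw
  rw [← Finset.sum_sub_distrib, Finset.mul_sum]
  refine Finset.sum_congr rfl fun i _ => ?_
  rw [List.sum_map_mul_left, V_ones hy]
  have h5 : ∀ l : List (List (Option (Fin 1))), (l.map fun r => LV (none :: r) - V (none :: r) (1 - t)).sum =
      (l.map fun r => LV (none :: r)).sum - (l.map fun r => V (none :: r) (1 - t)).sum := by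
    intro l
    induction l with
    | nil => simp
    | cons r l ih =>
      simp only [List.map_cons, List.sum_cons, ih]
      ring
  rw [h5]
  unfold Sw Lw
  have h6 : (((m + (n - i)).factorial : ℕ) : ℝ) ≠ 0 := by exact_mod_cast Nat.factorial_ne_zero _
  have h7 : (((n - i).factorial : ℕ) : ℝ) ≠ 0 := by exact_mod_cast Nat.factorial_ne_zero _
  rw [pow_add]
  field_simp
  ring

/-- the difference of a word and its polynomial -/
noncomputable def er (w : List Bool) (t : ℝ) : ℝ := V (bw w) (1 - t) - (pword w).eval (V [o1] (1 - t))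

lemma asym_word_pow (m : ℕ) {w : List Bool} (hw : InH1 w) :
    Tendsto (fun t => V [o1] (1 - t) ^ m * er w t) (𝓝[>] 0) (𝓝 0) := by
  unfold er
  rcases word_cases w with ⟨h1, h2⟩ | ⟨u, h1, h2⟩
  · have e2 : pword w = Polynomial.C (1 / (w.length.factorial : ℝ)) * Polynomial.X ^ w.length := by
      unfold pword
      rw [h1]
    rw [e2]
    refine tendsto_const_nhds.congr' ?_
    have h4 : ∀ᶠ y in 𝓝[>] (0 : ℝ), y < 1 := (eventually_lt_nhds one_pos).filter_mono nhdsWithin_le_nhds
    filter_upwards [h4, self_mem_nhdsWithin] with t ht1 ht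
    have ht0 : (0 : ℝ) < t := ht
    have hy : |1 - t| < 1 := by
      rw [abs_lt]
      constructor <;> linarith
    have e3 : V (bw w) (1 - t) = V [o1] (1 - t) ^ w.length / w.length.factorial := by
      conv_lhs => rw [h2, bw_rep]
      exact V_ones hy _
    rw [e3, Polynomial.eval_mul, Polynomial.eval_C, Polynomial.eval_pow, Polynomial.eval_X]
    ring
  · have e2 : pword w = Pw (w.takeWhile id).length (bw u) := by
      unfold pword
      rw [h1]
    have hadm := tail_adm hw h2
    have h3 := asym_pow m (w.takeWhile id).length (adm_tail hadm) (adm_none hadm)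
    rw [e2]
    refine h3.congr fun t => ?_
    have e3 : bw w = List.replicate (w.takeWhile id).length o1 ++ none :: bw u := by
      conv_lhs => rw [h2]
      show (List.replicate (w.takeWhile id).length true ++ false :: u).map b1 = _
      rw [List.map_append, List.map_replicate, List.map_cons]
      rfl
    rw [e3]

lemma asym_word_poly (P : Polynomial ℝ) {w : List Bool} (hw : InH1 w) :
    Tendsto (fun t => P.eval (V [o1] (1 - t)) * er w t) (𝓝[>] 0) (𝓝 0) := by
  have h1 : Tendsto (fun t => ∑ i ∈ Finset.range (P.natDegree + 1), P.coeff i * (V [o1] (1 - t) ^ i * er w t))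
      (𝓝[>] 0) (𝓝 0) := by
    refine (?_ : Tendsto _ _ (𝓝 (∑ i ∈ Finset.range (P.natDegree + 1), (0 : ℝ)))).trans (by simp)
    refine tendsto_finsetSum _ fun i _ => ?_
    have h2 := (asym_word_pow i hw).const_mul (P.coeff i)
    rw [mul_zero] at h2
    exact h2
  refine h1.congr fun t => ?_
  rw [Polynomial.eval_eq_sum_range, Finset.sum_mul]
  refine Finset.sum_congr rfl fun i _ => ?_
  ring

/-- the polynomials are multiplicative -/
theorem pword_mul {u v : List Bool} (hu : InH1 u) (hv : InH1 v) :
    PP (total (shuffles u v)) = pword u * pword v := by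
  have hmem : total (shuffles u v) ∈ S1 := by
    refine total_mem fun w hw => ?_
    rw [inH1_iff]
    refine adm_sh _ (bw u) (bw v) rfl ((inH1_iff u).1 hu) ((inH1_iff v).1 hv) _ ?_
    rw [← bw_shuffles]
    exact List.mem_map_of_mem hw
  have h1 := (asym hmem).1
  have h2 : Tendsto (fun t => er u t * er v t + (pword v).eval (V [o1] (1 - t)) * er u t +
      (pword u).eval (V [o1] (1 - t)) * er v t) (𝓝[>] 0) (𝓝 0) := by
    have a1 := asym_word_pow 0 hu
    have a2 := asym_word_pow 0 hv
    have a3 := asym_word_poly (pword v) hu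
    have a4 := asym_word_poly (pword u) hv
    have a5 := ((a1.mul a2).add a3).add a4
    rw [mul_zero, add_zero, add_zero] at a5
    refine a5.congr fun t => ?_
    rw [pow_zero, one_mul, one_mul]
  have h3 : Tendsto (fun t => (PP (total (shuffles u v)) - pword u * pword v).eval (V [o1] (1 - t))) (𝓝[>] 0) (𝓝 0) := by
    have h4 := h2.sub h1
    rw [sub_zero] at h4
    refine h4.congr' ?_
    have h5 : ∀ᶠ y in 𝓝[>] (0 : ℝ), y < 1 := (eventually_lt_nhds one_pos).filter_mono nhdsWithin_le_nhds
    filter_upwards [h5, self_mem_nhdsWithin] with t ht1 ht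
    have ht0 : (0 : ℝ) < t := ht
    have hy : |1 - t| < 1 := by
      rw [abs_lt]
      constructor <;> linarith
    have h6 := V_mul ((inH1_iff u).1 hu) ((inH1_iff v).1 hv) hy
    rw [FW_total, bw_shuffles, ← h6, Polynomial.eval_sub, Polynomial.eval_mul]
    unfold er
    ring
  exact sub_eq_zero.1 (poly_zero h3)

lemma zr_eq {w : List Bool} (hw : InH1 w) : zr w = (pword w).coeff 0 := by
  unfold zr
  rw [← coeff_word hw]
  unfold PP
  rw [Finsupp.linearCombination_single, one_smul]

lemma sum_zr (l : List (List Bool)) (hl : ∀ w ∈ l, InH1 w) : (l.map zr).sum = (PP (total l)).coeff 0 := by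
  rw [(asym (total_mem hl)).2]
  have h1 := map_total (Z.comp (Pool.Agent.Q187.ZD.DS.reg)) l
  rw [LinearMap.comp_apply] at h1
  rw [h1]
  rfl

end Pool.Agent.H492.RZ.SMulAux

namespace Pool.Agent.H492.RZ

open SMulAux in
open Pool.Agent.Q189.MV.DSh Pool.Agent.Q187.ZD.DS in
theorem sMul : SMul := by
  intro u v hu hv
  have hl : ∀ w ∈ shuffles u v, InH1 w := by
    intro w hw
    rw [inH1_iff]
    refine Pool.Agent.Q189.HL.adm_sh _ (bw u) (bw v) rfl ((inH1_iff u).1 hu) ((inH1_iff v).1 hv) _ ?_
    rw [← bw_shuffles]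
    exact List.mem_map_of_mem hw
  rw [sum_zr _ hl, pword_mul hu hv, Polynomial.mul_coeff_zero, zr_eq hu, zr_eq hv]

end Pool.Agent.H492.RZ
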