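import Pool.Agent.H492.RZ.Stm

/-!
# The stuffle relations modulo products and smaller depth (task sStuf)
-/

set_option autoImplicit false

namespace Pool.Agent.H492.RZ

open Module
open Pool.Agent.H492.UB (sh)
open Pool.Agent.Q187.ZD.DS (Z InH0 InH1 total shuffles stuffles index word reg element mzv)

namespace H720S

theorem index_rep (n c : ℕ) (w : List Bool) :
    index c (List.replicate n false ++ w) = index (c + n) w := by
  induction n generalizing c with
  | zero => rfl
  | succ n ih =>
    rw [List.replicate_succ, List.cons_append]
    show index (c + 1) (List.replicate n false ++ w) = _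
    rw [ih]
    congr 1
    omega

theorem index_word (u : List ℕ) (hu : ∀ a ∈ u, 1 ≤ a) : index 0 (word u) = u := by
  induction u with
  | nil => rfl
  | cons k l ih =>
    have hk : 1 ≤ k := hu k List.mem_cons_self
    show index 0 (List.replicate (k - 1) false ++ true :: word l) = k :: l
    rw [index_rep]
    show (0 + (k - 1) + 1) :: index 0 (word l) = k :: l
    rw [ih fun a ha => hu a (List.mem_cons_of_mem _ ha)]
    congr 1
    omega

theorem count_word (u : List ℕ) : (word u).count true = u.length := by
  induction u with
  | nil => rfl
  | cons k l ih =>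
    show (List.replicate (k - 1) false ++ true :: word l).count true = l.length + 1
    rw [List.count_append, List.count_cons_self, ih, List.count_replicate]
    simp

theorem length_word (u : List ℕ) (hu : ∀ a ∈ u, 1 ≤ a) : (word u).length = u.sum := by
  induction u with
  | nil => rfl
  | cons k l ih =>
    have hk : 1 ≤ k := hu k List.mem_cons_self
    show (List.replicate (k - 1) false ++ true :: word l).length = (k :: l).sum
    rw [List.length_append, List.length_cons, List.length_replicate,
      ih fun a ha => hu a (List.mem_cons_of_mem _ ha), List.sum_cons]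
    omega

theorem last_word (u : List ℕ) (hu : u ≠ []) : (word u).getLast? = some true := by
  induction u with
  | nil => exact absurd rfl hu
  | cons k l ih =>
    show (List.replicate (k - 1) false ++ true :: word l).getLast? = some true
    rw [List.getLast?_append]
    rcases eq_or_ne l [] with rfl | hl
    · rfl
    · have h1 : word l ≠ [] := by
        intro h
        have h2 := ih hl
        rw [h] at h2
        exact absurd h2 (by simp)
      rw [List.getLast?_cons, ih hl]
      rfl

theorem inH1_word (u : List ℕ) : InH1 (word u) := by
  rcases eq_or_ne u [] with rfl | hu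
  · exact Or.inl rfl
  · exact Or.inr (last_word u hu)

theorem inH0_word (v : List ℕ) (hv : v ≠ []) (h1 : ∀ a ∈ v, 1 ≤ a) (h2 : v.head? ≠ some 1) :
    InH0 (word v) := by
  refine Or.inr ⟨?_, last_word v hv⟩
  cases v with
  | nil => exact absurd rfl hv
  | cons k l =>
    have hk : 1 ≤ k := h1 k List.mem_cons_self
    have hk1 : k ≠ 1 := by
      intro h
      apply h2
      rw [h]
      rfl
    obtain ⟨n, rfl⟩ : ∃ n, k = n + 2 := ⟨k - 2, by omega⟩
    show (List.replicate (n + 2 - 1) false ++ true :: word l).head? = some false
    have e : n + 2 - 1 = n + 1 := rfl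
    rw [e, List.replicate_succ]
    rfl

theorem zr_word_mem (hR : SRegFil) (u : List ℕ) (hu : ∀ a ∈ u, 1 ≤ a) :
    zr (word u) ∈ Fil u.length u.sum := by
  have h := hR (word u) (inH1_word u)
  rwa [count_word, length_word u hu] at h

theorem Fil_mono {r r' k : ℕ} (h : r ≤ r') : Fil r k ≤ Fil r' k := by
  refine Submodule.span_mono ?_
  rintro x ⟨s, h1, h2, h3, h4⟩
  exact ⟨s, h1, h2, h3.trans h, h4⟩

/-- the indices in a stuffle product -/
theorem stuffles_mem (k l s : List ℕ) (hs : s ∈ stuffles k l) (hk : ∀ a ∈ k ++ l, 1 ≤ a) :
    (∀ a ∈ s, 1 ≤ a) ∧ s.sum = k.sum + l.sum ∧ s.length ≤ k.length + l.length := by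
  induction k, l using stuffles.induct generalizing s with
  | case1 l =>
    rw [stuffles, List.mem_singleton] at hs
    subst hs
    refine ⟨fun a ha => hk a ha, ?_, ?_⟩ <;> simp
  | case2 i k =>
    rw [stuffles, List.mem_singleton] at hs
    subst hs
    refine ⟨fun a ha => hk a (List.mem_append_left _ ha), ?_, ?_⟩ <;> simp
  | case3 i k j l ih1 ih2 ih3 =>
    have hi : 1 ≤ i := hk i (by simp)
    have hj : 1 ≤ j := hk j (by simp)
    rw [stuffles, List.mem_append, List.mem_append, List.mem_map, List.mem_map, List.mem_map] at hs
    rcases hs with (⟨t, ht, rfl⟩ | ⟨t, ht, rfl⟩) | ⟨t, ht, rfl⟩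
    · obtain ⟨h1, h2, h3⟩ := ih1 t ht (fun a ha => hk a (List.mem_cons_of_mem _ ha))
      simp only [List.sum_cons, List.length_cons] at h2 h3 ⊢
      refine ⟨?_, by omega, by omega⟩
      intro a ha
      rcases List.mem_cons.1 ha with rfl | ha
      · exact hi
      · exact h1 a ha
    · obtain ⟨h1, h2, h3⟩ := ih2 t ht (fun a ha => hk a (by
        simp only [List.mem_append, List.mem_cons] at ha ⊢
        tauto))
      simp only [List.sum_cons, List.length_cons] at h2 h3 ⊢
      refine ⟨?_, by omega, by omega⟩
      intro a ha
      rcases List.mem_cons.1 ha with rfl | ha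
      · exact hj
      · exact h1 a ha
    · obtain ⟨h1, h2, h3⟩ := ih3 t ht (fun a ha => hk a (by
        simp only [List.mem_append, List.mem_cons] at ha ⊢
        tauto))
      simp only [List.sum_cons, List.length_cons] at h2 h3 ⊢
      refine ⟨?_, by omega, by omega⟩
      intro a ha
      rcases List.mem_cons.1 ha with rfl | ha
      · omega
      · exact h1 a ha

/-- the stuffle product is the shuffle product up to shorter indices -/
theorem stuffles_sub (N : Submodule ℚ ℝ) (u v : List ℕ) (hu : ∀ a ∈ u ++ v, 1 ≤ a)
    (G : List ℕ → ℝ)
    (hG : ∀ s : List ℕ, (∀ a ∈ s, 1 ≤ a) → s.sum = u.sum + v.sum →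
      s.length + 1 ≤ u.length + v.length → G s ∈ N) :
    ((stuffles u v).map G).sum - ((sh u v).map G).sum ∈ N := by
  induction u, v using stuffles.induct generalizing G with
  | case1 l =>
    rw [stuffles, Pool.Agent.H492.UB.sh_nil_left, sub_self]
    exact N.zero_mem
  | case2 i k =>
    rw [stuffles, Pool.Agent.H492.UB.sh_nil_right, sub_self]
    exact N.zero_mem
  | case3 i k j l ih1 ih2 ih3 =>
    have hi : 1 ≤ i := hu i (by simp)
    have hj : 1 ≤ j := hu j (by simp)
    have a1 := ih1 (fun a ha => hu a (List.mem_cons_of_mem _ ha)) (fun s => G (i :: s)) (by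
      intro s h1 h2 h3
      refine hG (i :: s) ?_ ?_ ?_
      · intro a ha
        rcases List.mem_cons.1 ha with rfl | ha
        · exact hi
        · exact h1 a ha
      · simp only [List.sum_cons] at h2 ⊢
        omega
      · simp only [List.length_cons] at h3 ⊢
        omega)
    have a2 := ih2 (fun a ha => hu a (by
        simp only [List.mem_append, List.mem_cons] at ha ⊢
        tauto)) (fun s => G (j :: s)) (by
      intro s h1 h2 h3
      refine hG (j :: s) ?_ ?_ ?_
      · intro a ha
        rcases List.mem_cons.1 ha with rfl | ha
        · exact hj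
        · exact h1 a ha
      · simp only [List.sum_cons] at h2 ⊢
        omega
      · simp only [List.length_cons] at h3 ⊢
        omega)
    have a3 : ((stuffles k l).map fun s => G ((i + j) :: s)).sum ∈ N := by
      refine list_sum_mem fun x hx => ?_
      obtain ⟨s, hs, rfl⟩ := List.mem_map.1 hx
      obtain ⟨h1, h2, h3⟩ := stuffles_mem k l s hs (fun a ha => hu a (by
        simp only [List.mem_append, List.mem_cons] at ha ⊢
        tauto))
      refine hG ((i + j) :: s) ?_ ?_ ?_
      · intro a ha
        rcases List.mem_cons.1 ha with rfl | ha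
        · omega
        · exact h1 a ha
      · simp only [List.sum_cons]
        omega
      · simp only [List.length_cons]
        omega
    have e1 : ((stuffles (i :: k) (j :: l)).map G).sum =
        ((stuffles k (j :: l)).map fun s => G (i :: s)).sum +
        ((stuffles (i :: k) l).map fun s => G (j :: s)).sum +
        ((stuffles k l).map fun s => G ((i + j) :: s)).sum := by
      rw [stuffles, List.map_append, List.map_append, List.sum_append, List.sum_append, List.map_map,
        List.map_map, List.map_map]
      rfl
    have e2 : ((sh (i :: k) (j :: l)).map G).sum =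
        ((sh k (j :: l)).map fun s => G (i :: s)).sum +
        ((sh (i :: k) l).map fun s => G (j :: s)).sum := by
      rw [Pool.Agent.H492.UB.sh_cons_cons, List.map_append, List.sum_append, List.map_map,
        List.map_map]
      rfl
    rw [e1, e2]
    have e3 : ((stuffles k (j :: l)).map fun s => G (i :: s)).sum +
        ((stuffles (i :: k) l).map fun s => G (j :: s)).sum +
        ((stuffles k l).map fun s => G ((i + j) :: s)).sum -
        (((sh k (j :: l)).map fun s => G (i :: s)).sum +
        ((sh (i :: k) l).map fun s => G (j :: s)).sum) =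
        (((stuffles k (j :: l)).map fun s => G (i :: s)).sum -
          ((sh k (j :: l)).map fun s => G (i :: s)).sum) +
        (((stuffles (i :: k) l).map fun s => G (j :: s)).sum -
          ((sh (i :: k) l).map fun s => G (j :: s)).sum) +
        ((stuffles k l).map fun s => G ((i + j) :: s)).sum := by ring
    rw [e3]
    exact N.add_mem (N.add_mem a1 a2) a3

theorem Z_reg_total (L : List (List Bool)) : Z (reg (total L)) = (L.map zr).sum := by
  unfold total
  induction L with
  | nil => simp
  | cons w L ih =>
    rw [List.map_cons, List.sum_cons, map_add, map_add, ih, List.map_cons, List.sum_cons]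
    rfl

end H720S

open H720S in
/-- the stuffle relations modulo products and smaller depth -/
theorem sStuf (h1 : SMul) (h2 : SRegFil) : SStuf := by
  intro u v hu hv hpos hhead
  have hup : ∀ a ∈ u, 1 ≤ a := fun a ha => hpos a (List.mem_append_left _ ha)
  have hvp : ∀ a ∈ v, 1 ≤ a := fun a ha => hpos a (List.mem_append_right _ ha)
  have hZ := Pool.Agent.Q189.MV.DSh.Z_element (inH1_word u) (inH0_word v hv hvp hhead)
  unfold element at hZ
  rw [map_sub, map_sub, Z_reg_total, Z_reg_total, index_word u hup, index_word v hvp,
    h1 _ _ (inH1_word u) (inH1_word v), sub_eq_zero, List.map_map] at hZ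
  have hP : ((stuffles u v).map (zr ∘ word)).sum ∈
      Fil (u.length + v.length - 1) (u.sum + v.sum) ⊔ Prd (u.length + v.length) (u.sum + v.sum) := by
    rw [← hZ]
    refine Submodule.mem_sup_right (Submodule.subset_span ?_)
    exact ⟨u.length, v.length, u.sum, v.sum, List.length_pos_iff.2 hu, List.length_pos_iff.2 hv, rfl,
      rfl, _, zr_word_mem h2 u hup, _, zr_word_mem h2 v hvp, rfl⟩
  have hD := stuffles_sub
    (Fil (u.length + v.length - 1) (u.sum + v.sum) ⊔ Prd (u.length + v.length) (u.sum + v.sum))
    u v hpos (zr ∘ word) (by
      intro s hs1 hs2 hs3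
      refine Submodule.mem_sup_left ?_
      have h3 := zr_word_mem h2 s hs1
      rw [hs2] at h3
      exact Fil_mono (by omega) h3)
  have h4 := Submodule.sub_mem _ hP hD
  rw [sub_sub_cancel] at h4
  exact h4

end Pool.Agent.H492.RZ
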