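import Pool.Agent.H492.RZ.Stm

/-!
# The regularized values have the right weight and depth; products (helper289, for helper492)
-/

set_option autoImplicit false

namespace Pool.Agent.H492.RZ

open Module
open Pool.Agent.Q187.ZD.DS (Z InH0 InH1 total shuffles stuffles index word reg element mzv regWord)

namespace RegFilAux

open Pool.Agent.Q189.MV.DSh

lemma perm_shuffles (u v : List Bool) : ∀ r ∈ shuffles u v, r.Perm (u ++ v) := by
  induction u, v using shuffles.induct with
  | case1 v =>
    intro r hr
    rw [shuffles, List.mem_singleton] at hr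
    rw [hr, List.nil_append]
  | case2 a u =>
    intro r hr
    rw [shuffles, List.mem_singleton] at hr
    rw [hr, List.append_nil]
  | case3 a u b v ih1 ih2 =>
    intro r hr
    rw [shuffles, List.mem_append, List.mem_map, List.mem_map] at hr
    rcases hr with ⟨r, hr, rfl⟩ | ⟨r, hr, rfl⟩
    · exact (ih1 r hr).cons a
    · exact ((ih2 r hr).cons b).trans List.perm_middle.symm

lemma inH1_shuffles {u v : List Bool} (hu : InH1 u) (hv : InH1 v) : ∀ r ∈ shuffles u v, InH1 r := by
  intro r hr
  rw [inH1_iff]
  refine Pool.Agent.Q189.HL.adm_sh _ (bw u) (bw v) rfl ((inH1_iff u).1 hu) ((inH1_iff v).1 hv) _ ?_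
  rw [← bw_shuffles]
  exact List.mem_map_of_mem hr

lemma length_word : ∀ s : List ℕ, (∀ a ∈ s, 1 ≤ a) → (word s).length = s.sum
  | [], _ => rfl
  | a :: s, h => by
    have h1 := h a (List.mem_cons_self)
    have h2 := length_word s fun b hb => h b (List.mem_cons_of_mem _ hb)
    rw [word, List.length_append, List.length_replicate, List.length_cons, h2, List.sum_cons]
    omega

lemma count_word : ∀ s : List ℕ, (word s).count true = s.length
  | [] => rfl
  | a :: s => by
    have h2 := count_word s
    rw [word, List.count_append, List.count_replicate, List.count_cons_self, h2, List.length_cons]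
    simp

lemma index_rep (m : ℕ) : ∀ (c : ℕ) (u : List Bool),
    index c (List.replicate m false ++ true :: u) = (c + m + 1) :: index 0 u := by
  induction m with
  | zero =>
    intro c u
    rw [List.replicate_zero, List.nil_append, index]
  | succ m ih =>
    intro c u
    rw [List.replicate_succ, List.cons_append, index, ih]
    congr 1
    omega

lemma index_word : ∀ s : List ℕ, (∀ a ∈ s, 1 ≤ a) → index 0 (word s) = s
  | [], _ => rfl
  | a :: s, h => by
    have h1 := h a (List.mem_cons_self)
    have h2 := index_word s fun b hb => h b (List.mem_cons_of_mem _ hb)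
    rw [word, index_rep, h2]
    congr 1
    omega

lemma Fil_mono {r r' : ℕ} (h : r ≤ r') (k : ℕ) : Fil r k ≤ Fil r' k := by
  refine Submodule.span_mono ?_
  rintro x ⟨s, h1, h2, h3, h4⟩
  exact ⟨s, h1, h2, h3.trans h, h4⟩

lemma mzv_mem {w : List Bool} (hw : InH0 w) : Z (Finsupp.single w 1) ∈ Fil (w.count true) w.length := by
  have h1 : Z (Finsupp.single w 1) = mzv (index 0 w) := by
    unfold Z
    rw [Finsupp.linearCombination_single, one_smul]
  have h2 := word_index' (H0_H1 hw)
  have h3 := index_adm hw
  refine Submodule.subset_span ⟨index 0 w, ⟨index_pos w 0, ?_⟩, ?_, ?_, h1⟩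
  · intro h4
    rcases hi : index 0 w with _ | ⟨a, t⟩
    · rw [hi] at h4
      simp at h4
    · rw [hi, List.head?_cons, Option.some_inj] at h4
      have h5 := h3.2 a t hi
      omega
  · rw [← length_word _ (index_pos w 0), h2]
  · rw [← count_word, h2]

lemma zr_eq (w : List Bool) : zr w = Z (regWord w) := by
  unfold zr reg
  rw [Finsupp.linearCombination_single, one_smul]

lemma regWord_adm {w : List Bool} (hw : InH0 w) : regWord w = Finsupp.single w 1 := by
  rcases hw with rfl | ⟨h1, -⟩
  · rfl
  · rcases w with _ | ⟨b, u⟩
    · simp at h1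
    · rw [List.head?_cons, Option.some_inj] at h1
      subst h1
      have e1 : (false :: u).dropWhile id = false :: u := rfl
      have e2 : (false :: u).takeWhile id = [] := rfl
      have e3 : shuffles [] u = [u] := by rw [shuffles]
      unfold regWord
      rw [e1, e2]
      simp only [e3]
      simp [total]

/-- the word of an admissible index -/
lemma inH0_word {s : List ℕ} (hs : IsAdm s) : InH0 (word s) := by
  rcases s with _ | ⟨a, s⟩
  · exact Or.inl rfl
  · right
    have h1 : 1 ≤ a := hs.1 a (List.mem_cons_self)
    have h2 : a ≠ 1 := by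
      rintro rfl
      exact hs.2 rfl
    obtain ⟨m, rfl⟩ : ∃ m, a = m + 2 := ⟨a - 2, by omega⟩
    refine ⟨rfl, ?_⟩
    have h3 : InH1 (word ((m + 2) :: s)) := by
      rw [inH1_iff, bw_word]
      exact Pool.Agent.Q189.MV.adm_wd _
    rcases h3 with h3 | h3
    · have : (word ((m + 2) :: s)).length = 0 := by rw [h3]; rfl
      rw [length_word _ hs.1, List.sum_cons] at this
      omega
    · exact h3

end RegFilAux

open RegFilAux Pool.Agent.Q189.MV.DSh

/-- the regularized values have the right weight and depth -/
theorem sRegFil : SRegFil := by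
  intro w hw
  rw [zr_eq]
  rcases word_cases w with ⟨h1, h2⟩ | ⟨u, h1, h2⟩
  · have e3 : regWord w = if w = [] then Finsupp.single [] 1 else 0 := by
      unfold regWord
      rw [h1]
    rw [e3]
    split_ifs with h0
    · subst h0
      exact mzv_mem (Or.inl rfl)
    · rw [map_zero]
      exact Submodule.zero_mem _
  · have e3 : regWord w = ((-1 : ℚ) ^ (w.takeWhile id).length) •
        total ((shuffles (w.takeWhile id) u).map (false :: ·)) := by
      unfold regWord
      rw [h1]
    have hu : u ≠ [] ∧ u.getLast? = some true := by
      rcases hw with hw | hw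
      · rw [hw] at h2
        simp at h2
      · rw [h2, List.getLast?_append_of_ne_nil _ (by simp)] at hw
        rcases u with _ | ⟨b, u⟩
        · simp at hw
        · rw [List.getLast?_cons_cons] at hw
          exact ⟨by simp, hw⟩
    have ht : InH1 (w.takeWhile id) := by
      rw [take_rep w]
      rcases (w.takeWhile id).length with _ | n
      · exact Or.inl rfl
      · right
        rw [List.replicate_succ', List.getLast?_append_of_ne_nil _ (by simp)]
        rfl
    rw [e3, map_smul, map_total, List.map_map]
    refine Submodule.smul_mem _ _ (list_sum_mem fun x hx => ?_)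
    obtain ⟨r, hr, rfl⟩ := List.mem_map.1 hx
    have h3 := perm_shuffles _ _ r hr
    have h4 := inH1_shuffles ht (Or.inr hu.2) r hr
    have hr0 : r ≠ [] := by
      intro h
      rw [h] at h3
      have := h3.length_eq
      rw [List.length_append, List.length_nil] at this
      have h5 : 0 < u.length := List.length_pos_iff.2 hu.1
      omega
    have h5 : InH0 (false :: r) := by
      refine Or.inr ⟨rfl, ?_⟩
      rcases h4 with h4 | h4
      · exact absurd h4 hr0
      · rcases r with _ | ⟨b, r⟩
        · exact absurd rfl hr0
        · rw [List.getLast?_cons_cons]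
          exact h4
    have h6 := mzv_mem h5
    have h7 : w.Perm (false :: r) := by
      have h8 := List.takeWhile_append_dropWhile (p := id) (l := w)
      rw [h1] at h8
      rw [← h8]
      exact List.perm_middle.trans (h3.symm.cons false)
    rw [h7.count_eq, h7.length_eq]
    exact h6

/-- products -/
theorem sFilMul (h : SMul) : SFilMul := by
  intro r₁ r₂ k₁ k₂
  unfold Fil
  rw [Submodule.span_mul_span]
  refine Submodule.span_le.2 ?_
  rintro x ⟨y, ⟨s, hs1, hs2, hs3, rfl⟩, z, ⟨t, ht1, ht2, ht3, rfl⟩, rfl⟩
  have key : ∀ s : List ℕ, IsAdm s → mzv s = zr (word s) := by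
    intro s hs
    rw [zr_eq, regWord_adm (inH0_word hs)]
    unfold Z
    rw [Finsupp.linearCombination_single, one_smul, index_word s hs.1]
  show mzv s * mzv t ∈ Fil (r₁ + r₂) (k₁ + k₂)
  have hs4 := H0_H1 (inH0_word hs1)
  have ht4 := H0_H1 (inH0_word ht1)
  rw [key s hs1, key t ht1, ← h _ _ hs4 ht4]
  refine list_sum_mem fun x hx => ?_
  obtain ⟨r, hr, rfl⟩ := List.mem_map.1 hx
  have h1 := perm_shuffles _ _ r hr
  have h2 := sRegFil r (inH1_shuffles hs4 ht4 r hr)
  rw [h1.count_eq, h1.length_eq, List.count_append, List.length_append, count_word, count_word,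
    length_word _ hs1.1, length_word _ ht1.1, hs2, ht2] at h2
  exact Fil_mono (by omega) _ h2

end Pool.Agent.H492.RZ
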