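import Pool.Agent.H492.RZ.Stm
import Pool.Agent.H492.UB.Sp
import Pool.Agent.H492.UB.SBAPf

/-!
# The polynomial of a function on words satisfies the linearized double shuffle relations

Counting: the number of times `w` occurs in `sh p q` is the number of times `(p, q)` occurs in
`splits w`; so the functions which kill the shuffles are dual to the splitting formulas.
-/

set_option autoImplicit false

namespace Pool.Agent.H492.RZ

open Module
open Pool.Agent.H492.UB (sh ps BA ev)
open Pool.Agent.Q187.ZD.DS (Z InH0 InH1 total shuffles stuffles index word reg element mzv)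

namespace AbsPf

open MvPolynomial Pool.Agent.H492.UB Pool.Agent.H777R4.DM Pool.Agent.H159.LS

section words

variable {α : Type}

theorem sh_map {β : Type} (f : α → β) : ∀ a b : List α,
    sh (a.map f) (b.map f) = (sh a b).map (List.map f) := by
  intro a
  induction a with
  | nil => intro b; simp
  | cons x a iha =>
    intro b
    induction b with
    | nil => simp
    | cons y b ihb =>
      have h1 := iha (y :: b)
      rw [List.map_cons] at h1
      rw [List.map_cons] at ihb
      rw [List.map_cons, List.map_cons, sh_cons_cons, h1, ihb, sh_cons_cons, List.map_append,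
        List.map_map, List.map_map, List.map_map, List.map_map]
      rfl

theorem shuffles_eq : ∀ u v : List Bool, shuffles u v = sh u v := by
  intro u
  induction u with
  | nil => intro v; rw [shuffles, sh_nil_left]
  | cons x u ihu =>
    intro v
    induction v with
    | nil => rw [shuffles, sh_nil_right]
    | cons y v ihv => rw [shuffles, ihu, ihv, sh_cons_cons]

theorem sh_perm : ∀ a b w : List α, w ∈ sh a b → w.Perm (a ++ b) := by
  intro a
  induction a with
  | nil =>
    intro b w h
    rw [sh_nil_left, List.mem_singleton] at h
    rw [h, List.nil_append]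
  | cons x a iha =>
    intro b
    induction b with
    | nil =>
      intro w h
      rw [sh_nil_right, List.mem_singleton] at h
      rw [h, List.append_nil]
    | cons y b ihb =>
      intro w h
      rw [sh_cons_cons, List.mem_append, List.mem_map, List.mem_map] at h
      rcases h with ⟨u, hu, rfl⟩ | ⟨u, hu, rfl⟩
      · exact (iha _ _ hu).cons x
      · exact ((ihb _ hu).cons y).trans List.perm_middle.symm

theorem sh_head (x : α) (a b w : List α) (h : w ∈ sh (x :: a) (x :: b)) : ∃ u, w = x :: u := by
  rw [sh_cons_cons, List.mem_append, List.mem_map, List.mem_map] at h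
  rcases h with ⟨u, _, rfl⟩ | ⟨u, _, rfl⟩
  · exact ⟨u, rfl⟩
  · exact ⟨u, rfl⟩

theorem splits_snoc (x : α) : ∀ w : List α, (splits (w ++ [x])).Perm
    ((splits w).map (fun p => (p.1 ++ [x], p.2)) ++ (splits w).map (fun p => (p.1, p.2 ++ [x]))) := by
  intro w
  induction w with
  | nil => exact List.Perm.refl _
  | cons y w ih =>
    have e : splits (y :: w ++ [x]) = (splits (w ++ [x])).map (fun p => (y :: p.1, p.2)) ++
      (splits (w ++ [x])).map (fun p => (p.1, y :: p.2)) := rfl
    have e' : splits (y :: w) = (splits w).map (fun p => (y :: p.1, p.2)) ++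
      (splits w).map (fun p => (p.1, y :: p.2)) := rfl
    rw [e, e']
    refine ((ih.map _).append (ih.map _)).trans ?_
    simp only [List.map_append, List.map_map]
    rw [List.append_assoc, List.append_assoc]
    refine List.Perm.append (List.Perm.refl _) ?_
    rw [← List.append_assoc, ← List.append_assoc]
    exact List.Perm.append List.perm_append_comm (List.Perm.refl _)

theorem splits_reverse : ∀ w : List α, (splits w.reverse).Perm
    ((splits w).map fun p => (p.1.reverse, p.2.reverse)) := by
  intro w
  induction w with
  | nil => exact List.Perm.refl _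
  | cons x w ih =>
    rw [List.reverse_cons]
    refine (splits_snoc x _).trans ?_
    have e' : splits (x :: w) = (splits w).map (fun p => (x :: p.1, p.2)) ++
      (splits w).map (fun p => (p.1, x :: p.2)) := rfl
    rw [e', List.map_append]
    refine List.Perm.append ((ih.map _).trans ?_) ((ih.map _).trans ?_)
    · rw [List.map_map, List.map_map]
      refine List.Perm.of_eq (List.map_congr_left fun p _ => ?_)
      simp
    · rw [List.map_map, List.map_map]
      refine List.Perm.of_eq (List.map_congr_left fun p _ => ?_)
      simp

variable [DecidableEq α]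

theorem count_cons_map (x z : α) (w : List α) (l : List (List α)) :
    (l.map (x :: ·)).count (z :: w) = if x = z then l.count w else 0 := by
  split_ifs with h
  · subst h
    exact List.count_map_of_injective l (x :: ·) (List.cons_injective) w
  · rw [List.count_eq_zero]
    intro hm
    rw [List.mem_map] at hm
    obtain ⟨u, _, hu⟩ := hm
    exact h (List.cons.inj hu).1

theorem count_nil_map (x : α) (l : List (List α)) : (l.map (x :: ·)).count [] = 0 := by
  rw [List.count_eq_zero]
  intro hm
  rw [List.mem_map] at hm
  obtain ⟨u, _, hu⟩ := hm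
  exact List.cons_ne_nil _ _ hu

theorem countL (z x : α) (p q : List α) (l : List (List α × List α)) :
    (l.map fun s => (z :: s.1, s.2)).count (x :: p, q) = if x = z then l.count (p, q) else 0 := by
  split_ifs with h
  · subst h
    have hi : Function.Injective fun s : List α × List α => (x :: s.1, s.2) := by
      intro s t hst
      have h1 := Prod.ext_iff.1 hst
      exact Prod.ext (List.cons.inj h1.1).2 h1.2
    exact List.count_map_of_injective l (fun s : List α × List α => (x :: s.1, s.2)) hi (p, q)
  · rw [List.count_eq_zero]
    intro hm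
    rw [List.mem_map] at hm
    obtain ⟨u, _, hu⟩ := hm
    exact h (List.cons.inj (Prod.ext_iff.1 hu).1).1.symm

theorem countL0 (z : α) (q : List α) (l : List (List α × List α)) :
    (l.map fun s => (z :: s.1, s.2)).count ([], q) = 0 := by
  rw [List.count_eq_zero]
  intro hm
  rw [List.mem_map] at hm
  obtain ⟨u, _, hu⟩ := hm
  exact List.cons_ne_nil _ _ (Prod.ext_iff.1 hu).1

theorem countR (z y : α) (p q : List α) (l : List (List α × List α)) :
    (l.map fun s => (s.1, z :: s.2)).count (p, y :: q) = if y = z then l.count (p, q) else 0 := by
  split_ifs with h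
  · subst h
    have hi : Function.Injective fun s : List α × List α => (s.1, y :: s.2) := by
      intro s t hst
      have h1 := Prod.ext_iff.1 hst
      exact Prod.ext h1.1 (List.cons.inj h1.2).2
    exact List.count_map_of_injective l (fun s : List α × List α => (s.1, y :: s.2)) hi (p, q)
  · rw [List.count_eq_zero]
    intro hm
    rw [List.mem_map] at hm
    obtain ⟨u, _, hu⟩ := hm
    exact h (List.cons.inj (Prod.ext_iff.1 hu).2).1.symm

theorem countR0 (z : α) (p : List α) (l : List (List α × List α)) :
    (l.map fun s => (s.1, z :: s.2)).count (p, []) = 0 := by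
  rw [List.count_eq_zero]
  intro hm
  rw [List.mem_map] at hm
  obtain ⟨u, _, hu⟩ := hm
  exact List.cons_ne_nil _ _ (Prod.ext_iff.1 hu).2

/-- the duality of shuffles and splittings -/
theorem count_splits (w : List α) : ∀ p q : List α, (splits w).count (p, q) = (sh p q).count w := by
  induction w with
  | nil =>
    intro p q
    have e : splits ([] : List α) = [([], [])] := rfl
    rw [e]
    cases p with
    | nil =>
      cases q with
      | nil => simp
      | cons y q => simp
    | cons x p =>
      cases q with
      | nil => simp
      | cons y q =>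
        rw [sh_cons_cons, List.count_append, count_nil_map, count_nil_map]
        simp
  | cons z w ih =>
    intro p q
    have e : splits (z :: w) = (splits w).map (fun p => (z :: p.1, p.2)) ++
      (splits w).map (fun p => (p.1, z :: p.2)) := rfl
    rw [e, List.count_append]
    cases p with
    | nil =>
      cases q with
      | nil => rw [countL0, countR0]; simp
      | cons y q =>
        have e2 : sh ([] : List α) (y :: q) = (sh [] q).map (y :: ·) := rfl
        rw [countL0, countR, ih, e2, count_cons_map, zero_add]
    | cons x p =>
      cases q with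
      | nil =>
        have e2 : sh (x :: p) ([] : List α) = (sh p []).map (x :: ·) := by
          rw [sh_nil_right, sh_nil_right]
          rfl
        rw [countL, countR0, ih, e2, count_cons_map, add_zero]
      | cons y q =>
        rw [countL, countR, ih, ih, sh_cons_cons, List.count_append, count_cons_map,
          count_cons_map]

theorem mem_splits (w p q : List α) : (p, q) ∈ splits w ↔ w ∈ sh p q := by
  rw [← List.count_pos_iff, count_splits, List.count_pos_iff]

theorem sh_reverse (p q : List α) : ((sh p q).map List.reverse).Perm (sh p.reverse q.reverse) := by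
  rw [List.perm_iff_count]
  intro w
  have h1 : ((sh p q).map List.reverse).count w = (sh p q).count w.reverse := by
    have := List.count_map_of_injective (sh p q) List.reverse List.reverse_injective w.reverse
    rwa [List.reverse_reverse] at this
  have h2 : (splits w.reverse).count (p, q) = (splits w).count (p.reverse, q.reverse) := by
    rw [(splits_reverse w).count_eq]
    have hi : Function.Injective fun s : List α × List α => (s.1.reverse, s.2.reverse) := by
      intro s t hst
      have h1 := Prod.ext_iff.1 hst
      exact Prod.ext (List.reverse_injective h1.1) (List.reverse_injective h1.2)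
    have := List.count_map_of_injective (splits w)
      (fun s : List α × List α => (s.1.reverse, s.2.reverse)) hi (p.reverse, q.reverse)
    dsimp only at this
    rwa [List.reverse_reverse, List.reverse_reverse] at this
  rw [h1, ← count_splits, h2, count_splits]

theorem sum_count {β M : Type} [BEq β] [LawfulBEq β] [AddCommMonoid M] (l : List β) (f : β → M)
    (s : Finset β) (hs : ∀ x ∈ l, x ∈ s) : (l.map f).sum = ∑ x ∈ s, l.count x • f x := by
  classical
  induction l with
  | nil => simp
  | cons y l ih =>
    have hy : y ∈ s := hs y List.mem_cons_self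
    have h1 := ih (fun x hx => hs x (List.mem_cons_of_mem _ hx))
    rw [List.map_cons, List.sum_cons, h1]
    have h2 : ∀ x ∈ s, (y :: l).count x • f x = l.count x • f x + if y = x then f y else 0 := by
      intro x _
      rw [List.count_cons]
      by_cases hyx : y = x
      · subst hyx
        rw [if_pos (beq_self_eq_true y), if_pos rfl, add_smul, one_smul]
      · rw [if_neg (by simpa using hyx), if_neg hyx, add_zero, add_zero]
    rw [Finset.sum_congr rfl h2, Finset.sum_add_distrib, Finset.sum_ite_eq, if_pos hy, add_comm]

/-- **Duality.** -/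
theorem dual {S : Type} [CommRing S] [Algebra ℚ S] (Wn : Finset (List α)) (F : List α → ℚ)
    (g : List α → List α → S)
    (hz : ∀ w ∈ Wn, ∀ p q : List α, w ∈ sh p q → g p q = 0 ∨
      ((∀ w' ∈ sh p q, w' ∈ Wn) ∧ ((sh p q).map F).sum = 0)) :
    ∑ w ∈ Wn, F w • ((splits w).map fun pq => g pq.1 pq.2).sum = 0 := by
  have h1 : ∀ w ∈ Wn, F w • ((splits w).map fun pq => g pq.1 pq.2).sum =
      ∑ pq ∈ Wn.biUnion (fun w => (splits w).toFinset),
        F w • ((splits w).count pq • g pq.1 pq.2) := by
    intro w hw
    rw [← Finset.smul_sum, ← sum_count]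
    intro pq hpq
    rw [Finset.mem_biUnion]
    exact ⟨w, hw, List.mem_toFinset.2 hpq⟩
  rw [Finset.sum_congr rfl h1, Finset.sum_comm]
  apply Finset.sum_eq_zero
  rintro ⟨p, q⟩ hpq
  rw [Finset.mem_biUnion] at hpq
  obtain ⟨w0, hw0, hpq⟩ := hpq
  rw [List.mem_toFinset, mem_splits] at hpq
  rcases hz w0 hw0 p q hpq with h | ⟨h, h'⟩
  · apply Finset.sum_eq_zero
    intro w _
    show F w • ((splits w).count (p, q) • g p q) = 0
    rw [h, smul_zero, smul_zero]
  · have h2 : ((sh p q).map F).sum = ∑ w ∈ Wn, ((sh p q).count w) • F w := by
      exact sum_count _ _ _ h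
    have h3 : ∑ w ∈ Wn, F w • ((splits w).count (p, q) • g p q) =
        (∑ w ∈ Wn, ((sh p q).count w) • F w) • g p q := by
      rw [Finset.sum_smul]
      apply Finset.sum_congr rfl
      intro w _
      rw [count_splits, smul_comm, smul_assoc]
    show ∑ w ∈ Wn, F w • ((splits w).count (p, q) • g p q) = 0
    rw [h3, ← h2, h', zero_smul]

end words

/-! ### The polynomial -/

variable {S : Type} [CommRing S] [Algebra ℚ S]

theorem ev_pol (r e : ℕ) (F : List Bool → ℚ) (l : List S) (hl : l.length = r) :
    ev (pol r e F) l = ∑ k ∈ Finset.Nat.antidiagonalTuple r e,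
      F (word ((List.ofFn k).map (· + 1)).reverse) • pX l (List.ofFn k) := by
  unfold ev pol
  rw [map_sum]
  apply Finset.sum_congr rfl
  intro k _
  rw [map_mul, aeval_C, map_prod, sba_pX_ofFn r l hl, Algebra.smul_def]
  simp only [map_pow, aeval_X]

/-- lists of length `r` and sum `e` -/
def Vn (r e : ℕ) : Finset (List ℕ) :=
  (Finset.Nat.antidiagonalTuple r e).image fun k => (List.ofFn k).reverse

theorem mem_Vn {r e : ℕ} {v : List ℕ} : v ∈ Vn r e ↔ v.length = r ∧ v.sum = e := by
  unfold Vn
  rw [Finset.mem_image]
  constructor
  · rintro ⟨k, hk, rfl⟩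
    obtain ⟨h1, h2⟩ := sba_tuple hk
    rw [List.length_reverse, List.sum_reverse]
    exact ⟨h1, h2⟩
  · rintro ⟨h1, h2⟩
    obtain ⟨k, hk, hkv⟩ := sba_mem_tuple (v := v.reverse) (r := r) (e := e)
      (by rw [List.length_reverse]; exact h1) (by rw [List.sum_reverse]; exact h2)
    exact ⟨k, hk, by rw [hkv, List.reverse_reverse]⟩

theorem ev_X (r e : ℕ) (F : List Bool → ℚ) (l : List S) (hl : l.length = r) :
    ev (pol r e F) l.reverse = ∑ v ∈ Vn r e, F (word (v.map (· + 1))) • pX l v := by
  rw [ev_pol r e F _ (by rw [List.length_reverse]; exact hl)]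
  unfold Vn
  rw [Finset.sum_image]
  · apply Finset.sum_congr rfl
    intro k hk
    obtain ⟨h1, _⟩ := sba_tuple hk
    have h5 : pX l.reverse (List.ofFn k) = pX l (List.ofFn k).reverse := by
      have := sba_pX_reverse l.reverse (List.ofFn k) (by rw [List.length_reverse, hl, h1])
      rw [← this, List.reverse_reverse]
    rw [h5, List.map_reverse]
  · intro k _ k' _ hkk
    exact List.ofFn_injective (List.reverse_injective hkk)

/-- the letters -/
def lt (i : Fin 2) : Bool := decide (i = 1)

theorem word_wordX (v : List ℕ) : word (v.map (· + 1)) = (wordX v).map lt := by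
  induction v with
  | nil => rfl
  | cons k v ih =>
    have e1 : word ((k :: v).map (· + 1)) = List.replicate k false ++ true :: word (v.map (· + 1)) :=
      rfl
    have e2 : wordX (k :: v) = List.replicate k 0 ++ 1 :: wordX v := rfl
    rw [e1, e2, ih, List.map_append, List.map_replicate, List.map_cons]
    rfl

/-- the words of the exponents -/
def Un (r e : ℕ) : Finset (List (Fin 2)) :=
  (Finset.Nat.antidiagonalTuple r e).image fun k => xw (List.ofFn k)

theorem of_mem_Un {r e : ℕ} {u : List (Fin 2)} (h : u ∈ Un r e) :
    u.count 1 = r ∧ u.length = e + r := by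
  unfold Un at h
  rw [Finset.mem_image] at h
  obtain ⟨k, hk, rfl⟩ := h
  obtain ⟨h1, h2⟩ := sba_tuple hk
  rw [sba_xw_count, sba_xw_length, h1, h2]
  exact ⟨rfl, rfl⟩

theorem mem_Un {r e : ℕ} {u : List (Fin 2)} (h1 : (1 :: u).count 1 = r)
    (h2 : (1 :: u).length = e + r) : (1 :: u) ∈ Un r e := by
  obtain ⟨m, v, hmv⟩ := sba_exists_xw (1 :: u)
  cases m with
  | succ m =>
    rw [List.replicate_succ, List.cons_append] at hmv
    exact absurd (List.cons.inj hmv).1 (by decide)
  | zero =>
    rw [List.replicate_zero, List.nil_append] at hmv
    rw [hmv] at h1 h2 ⊢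
    rw [sba_xw_count] at h1
    rw [sba_xw_length] at h2
    obtain ⟨k, hk, hkv⟩ := sba_mem_tuple h1 (show v.sum = e by omega)
    unfold Un
    rw [Finset.mem_image]
    exact ⟨k, hk, by rw [hkv]⟩

omit [Algebra ℚ S] in
theorem ps_length (z : S) (l : List S) : (ps z l).length = l.length := by
  induction l generalizing z with
  | nil => rfl
  | cons a l ih => simp [ih]

theorem ev_Y (r e : ℕ) (F : List Bool → ℚ) (l : List S) (hl : l.length = r) :
    ev (pol r e F) (ps 0 l) = ∑ u ∈ Un r e, F ((u.map lt).reverse) • pY 0 l u := by
  rw [ev_pol r e F _ ((ps_length 0 l).trans hl)]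
  unfold Un
  rw [Finset.sum_image]
  · apply Finset.sum_congr rfl
    intro k hk
    rw [sba_pY_xw, ← List.map_reverse, word_wordX, ← sba_xw_reverse, List.map_reverse]
  · intro k _ k' _ hkk
    exact List.ofFn_injective (sba_xw_inj hkk)

omit [Algebra ℚ S] in
theorem pY_zero_zero (a : List S) (ha : a ≠ []) (p : List (Fin 2)) (h : ∀ p', p ≠ 1 :: p') :
    pY 0 a p = 0 := by
  cases p with
  | nil =>
    obtain ⟨x, a', rfl⟩ := List.exists_cons_of_ne_nil ha
    rfl
  | cons i p =>
    have hi : i ≠ 1 := fun hi => h p (by rw [hi])
    rw [Sp.pY_ne _ _ hi, zero_mul]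

theorem count_lt (p : List (Fin 2)) : (p.map lt).count true = p.count 1 := by
  have hi : Function.Injective lt := by
    intro i j h
    revert i j
    decide
  exact List.count_map_of_injective p lt hi 1

omit [Algebra ℚ S] in
theorem list_sum_comm {β γ : Type} (l : List β) (s : Finset γ) (f : β → γ → S) :
    (l.map fun x => ∑ y ∈ s, f x y).sum = ∑ y ∈ s, (l.map fun x => f x y).sum := by
  induction l with
  | nil => simp
  | cons x l ih =>
    simp only [List.map_cons, List.sum_cons]
    rw [ih, Finset.sum_add_distrib]

theorem list_smul {β : Type} (l : List β) (c : ℚ) (f : β → S) :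
    (l.map fun x => c • f x).sum = c • (l.map f).sum := by
  induction l with
  | nil => simp
  | cons x l ih => simp only [List.map_cons, List.sum_cons, ih, smul_add]

end AbsPf

open MvPolynomial Pool.Agent.H492.UB Pool.Agent.H777R4.DM Pool.Agent.H159.LS AbsPf in
theorem sAbs : SAbs := by
  intro r e F _ hsh hst
  refine ⟨?_, ?_, ?_⟩
  · unfold pol
    apply IsHomogeneous.sum
    intro k hk
    rw [Finset.Nat.mem_antidiagonalTuple] at hk
    have h := (isHomogeneous_C (Fin r) (F (word ((List.ofFn k).map (· + 1)).reverse))).mul
      (IsHomogeneous.prod Finset.univ (fun i => (X i : MvPolynomial (Fin r) ℚ) ^ k i) k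
        (fun i _ => by simpa using (isHomogeneous_X ℚ i).pow (k i)))
    rw [hk, zero_add] at h
    exact h
  · intro a b ha hb hab
    have e1 : ((sh a b).map fun w => ev (pol r e F) w.reverse) =
        (sh a b).map fun w => ∑ v ∈ Vn r e, F (word (v.map (· + 1))) • pX w v := by
      apply List.map_congr_left
      intro w hw
      exact ev_X r e F w ((sba_mem_sh a b w hw).trans hab)
    rw [e1, list_sum_comm]
    have e2 : ∀ v ∈ Vn r e, ((sh a b).map fun w => F (word (v.map (· + 1))) • pX w v).sum =
        F (word (v.map (· + 1))) • ((splits v).map fun p => pX a p.1 * pX b p.2).sum := by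
      intro v _
      rw [list_smul, spX]
    rw [Finset.sum_congr rfl e2]
    apply dual (Vn r e) (fun v => F (word (v.map (· + 1)))) (fun p q => pX a p * pX b q)
    intro w hw p q hpq
    obtain ⟨h1, h2⟩ := mem_Vn.1 hw
    have hperm := sh_perm p q w hpq
    have hl : p.length + q.length = r := by
      rw [← h1, hperm.length_eq, List.length_append]
    have hs : p.sum + q.sum = e := by
      rw [← h2, hperm.sum_eq, List.sum_append]
    by_cases hp : p = []
    · left
      obtain ⟨x, a', rfl⟩ := List.exists_cons_of_ne_nil ha
      rw [hp, Sp.pX_cons_nil, zero_mul]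
    by_cases hq : q = []
    · left
      obtain ⟨x, b', rfl⟩ := List.exists_cons_of_ne_nil hb
      rw [hq, Sp.pX_cons_nil, mul_zero]
    right
    constructor
    · intro w' hw'
      have hp' := sh_perm p q w' hw'
      rw [mem_Vn, hp'.length_eq, hp'.sum_eq, List.length_append, List.sum_append]
      exact ⟨hl, hs⟩
    · have h3 := hst (p.map (· + 1)) (q.map (· + 1)) (by simpa using hp) (by simpa using hq)
        (by
          intro x hx
          rw [List.mem_append, List.mem_map, List.mem_map] at hx
          rcases hx with ⟨y, _, rfl⟩ | ⟨y, _, rfl⟩ <;> omega) (by simpa using hl)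
        (by
          have hsm : ∀ l : List ℕ, (l.map (· + 1)).sum = l.sum + l.length := by
            intro l
            induction l with
            | nil => rfl
            | cons x l ih =>
              rw [List.map_cons, List.sum_cons, ih, List.sum_cons, List.length_cons]
              omega
          rw [hsm, hsm]
          omega)
      rw [sh_map, List.map_map] at h3
      exact h3
  · intro a b ha hb hab
    have e1 : ((sh a b).map fun w => ev (pol r e F) (ps 0 w)) =
        (sh a b).map fun w => ∑ u ∈ Un r e, F ((u.map lt).reverse) • pY 0 w u := by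
      apply List.map_congr_left
      intro w hw
      exact ev_Y r e F w ((sba_mem_sh a b w hw).trans hab)
    rw [e1, list_sum_comm]
    have e2 : ∀ u ∈ Un r e, ((sh a b).map fun w => F ((u.map lt).reverse) • pY 0 w u).sum =
        F ((u.map lt).reverse) • ((splits u).map fun p => pY 0 a p.1 * pY 0 b p.2).sum := by
      intro u _
      rw [list_smul]
      have h := spY (MvPolynomial (Fin r) ℚ) 0 0 a b u
      rw [add_zero] at h
      rw [h]
    rw [Finset.sum_congr rfl e2]
    apply dual (Un r e) (fun u => F ((u.map lt).reverse)) (fun p q => pY 0 a p * pY 0 b q)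
    intro w hw p q hpq
    obtain ⟨h1, h2⟩ := of_mem_Un hw
    have hperm := sh_perm p q w hpq
    have hl : p.length + q.length = e + r := by
      rw [← h2, hperm.length_eq, List.length_append]
    have hs : p.count 1 + q.count 1 = r := by
      rw [← h1, hperm.count_eq, List.count_append]
    by_cases hp : ∀ p', p ≠ 1 :: p'
    · left
      rw [pY_zero_zero a ha p hp, zero_mul]
    by_cases hq : ∀ p', q ≠ 1 :: p'
    · left
      rw [pY_zero_zero b hb q hq, mul_zero]
    push Not at hp hq
    obtain ⟨p', rfl⟩ := hp
    obtain ⟨q', rfl⟩ := hq
    right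
    constructor
    · intro w' hw'
      obtain ⟨u, rfl⟩ := sh_head 1 p' q' w' hw'
      have hp' := sh_perm _ _ _ hw'
      apply mem_Un
      · rw [hp'.count_eq, List.count_append]
        exact hs
      · rw [hp'.length_eq, List.length_append]
        exact hl
    · have h3 := hsh ((1 :: p').map lt).reverse ((1 :: q').map lt).reverse
        (by rw [List.map_cons, List.reverse_cons, List.getLast?_concat]; rfl)
        (by rw [List.map_cons, List.reverse_cons, List.getLast?_concat]; rfl)
        (by
          rw [List.count_append, List.count_reverse, List.count_reverse, count_lt, count_lt]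
          exact hs)
        (by
          rw [List.length_append, List.length_reverse, List.length_reverse, List.length_map,
            List.length_map]
          exact hl)
      rw [shuffles_eq, ← ((sh_reverse _ _).map F).sum_eq, sh_map, List.map_map, List.map_map] at h3
      exact h3

end Pool.Agent.H492.RZ
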