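import Pool.Agent.H492.RZ.Stm

/-!
# The dimension count in depth four
-/

set_option autoImplicit false

namespace Pool.Agent.H492.RZ

open Module
open Pool.Agent.H492.UB (sh ps BA ev)
open Pool.Agent.Q187.ZD.DS (Z InH0 InH1 total shuffles stuffles index word reg element mzv)

namespace D860

/-- the dimension of `A` is at most `n` -/
def Bd (A : Submodule ℚ ℝ) (n : ℕ) : Prop := Module.rank ℚ A ≤ (n : Cardinal)

theorem Bd.mono {A : Submodule ℚ ℝ} {m n : ℕ} (h : Bd A m) (hmn : m ≤ n) : Bd A n :=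
  le_trans h (by exact_mod_cast hmn)

theorem Bd.of_le {A B : Submodule ℚ ℝ} {n : ℕ} (h : Bd B n) (hAB : A ≤ B) : Bd A n :=
  (Submodule.rank_mono hAB).trans h

theorem Bd.bot : Bd ⊥ 0 := by
  unfold Bd
  rw [Submodule.rank_eq_zero.mpr rfl]
  simp

theorem Bd.eq_bot {A : Submodule ℚ ℝ} (h : Bd A 0) : A = ⊥ := by
  unfold Bd at h
  rw [Nat.cast_zero] at h
  exact Submodule.rank_eq_zero.mp (le_antisymm h zero_le)

theorem Bd.sup {A B : Submodule ℚ ℝ} {m n : ℕ} (hA : Bd A m) (hB : Bd B n) :
    Bd (A ⊔ B) (m + n) := by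
  unfold Bd at *
  rw [Nat.cast_add]
  exact (Submodule.rank_add_le_rank_add_rank A B).trans (add_le_add hA hB)

theorem Bd.mul {A B : Submodule ℚ ℝ} {m n : ℕ} (hA : Bd A m) (hB : Bd B n) :
    Bd (A * B) (m * n) := by
  unfold Bd at *
  rw [Nat.cast_mul, ← Submodule.mulMap_range]
  refine (rank_range_le _).trans ?_
  rw [rank_tensorProduct']
  exact mul_le_mul' hA hB

theorem Bd.iSup {ι : Type} (s : Set ι) (t : Finset ι) (A : ι → Submodule ℚ ℝ) (f : ι → ℕ)
    (h1 : ∀ i ∈ s, i ∉ t → A i = ⊥) (h2 : ∀ i ∈ t, Bd (A i) (f i)) :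
    Bd (⨆ i ∈ s, A i) (∑ i ∈ t, f i) := by
  classical
  have h3 : ⨆ i ∈ s, A i ≤ t.sup A := by
    refine iSup₂_le fun i hi => ?_
    by_cases hit : i ∈ t
    · exact Finset.le_sup hit
    · rw [h1 i hi hit]
      exact bot_le
  refine Bd.of_le ?_ h3
  clear h3 h1
  induction t using Finset.induction_on with
  | empty =>
    rw [Finset.sup_empty, Finset.sum_empty]
    exact Bd.bot
  | insert a t ha ih =>
    rw [Finset.sup_insert, Finset.sum_insert ha]
    exact Bd.sup (h2 a (Finset.mem_insert_self a t))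
      (ih fun i hi => h2 i (Finset.mem_insert_of_mem hi))

/-- the dimension of a quotient -/
theorem quot_le {V : Type} [AddCommGroup V] [Module ℚ V] (A N B : Submodule ℚ V) (n : ℕ)
    (hB : Module.rank ℚ B ≤ (n : Cardinal)) (h : A ≤ N ⊔ B) :
    finrank ℚ (A ⧸ N.comap A.subtype) ≤ n := by
  apply finrank_le_of_rank_le
  have hk : LinearMap.ker (N.mkQ.comp A.subtype) = N.comap A.subtype := by
    rw [LinearMap.ker_comp, Submodule.ker_mkQ]
  rw [← hk, (N.mkQ.comp A.subtype).quotKerEquivRange.rank_eq]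
  have hr : LinearMap.range (N.mkQ.comp A.subtype) ≤ B.map N.mkQ := by
    rintro _ ⟨a, rfl⟩
    obtain ⟨x, hx, b, hb, hab⟩ := Submodule.mem_sup.mp (h a.2)
    refine ⟨b, hb, ?_⟩
    rw [LinearMap.comp_apply, Submodule.subtype_apply, ← hab, map_add]
    have : N.mkQ x = 0 := by
      rw [Submodule.mkQ_apply, Submodule.Quotient.mk_eq_zero]
      exact hx
    rw [this, zero_add]
  exact (Submodule.rank_mono hr).trans ((rank_map_le _ _).trans hB)

/-- there are finitely many indices of bounded length and entries -/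
theorem lists_finite (r k : ℕ) : {s : List ℕ | s.length ≤ r ∧ ∀ a ∈ s, a ≤ k}.Finite := by
  induction r with
  | zero =>
    refine (Set.finite_singleton ([] : List ℕ)).subset ?_
    rintro s ⟨hs, -⟩
    rw [Set.mem_singleton_iff]
    exact List.length_eq_zero_iff.mp (Nat.le_zero.mp hs)
  | succ r ih =>
    refine ((Set.finite_singleton ([] : List ℕ)).union
      (Set.Finite.image2 (fun (a : ℕ) (s : List ℕ) => a :: s) (Set.finite_Iic k) ih)).subset ?_
    rintro s ⟨hs, hk⟩
    cases s with
    | nil => exact Or.inl rfl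
    | cons a s =>
      refine Or.inr ⟨a, hk a List.mem_cons_self, s, ⟨?_, fun b hb => hk b (List.mem_cons_of_mem a hb)⟩,
        rfl⟩
      rw [List.length_cons] at hs
      omega

theorem fil_fin (r k : ℕ) : FiniteDimensional ℚ (Fil r k) := by
  unfold Fil
  apply FiniteDimensional.span_of_finite ℚ
  refine ((lists_finite r k).image mzv).subset ?_
  rintro x ⟨s, -, hs2, hs3, rfl⟩
  refine ⟨s, ⟨hs3, fun a ha => ?_⟩, rfl⟩
  rw [← hs2]
  exact List.le_sum_of_mem ha

/-- for `k ≤ r` the depth can be lowered -/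
theorem fil_le {r k : ℕ} (hr : 1 ≤ r) (hk : k ≤ r) : Fil r k ≤ Fil (r - 1) k := by
  unfold Fil
  refine Submodule.span_mono ?_
  rintro x ⟨s, hs1, hs2, hs3, rfl⟩
  refine ⟨s, hs1, hs2, ?_, rfl⟩
  by_contra hlt
  have hlen : s.length = r := by omega
  cases s with
  | nil =>
    rw [List.length_nil] at hlen
    omega
  | cons a s =>
    have h1 : 1 ≤ a := hs1.1 a List.mem_cons_self
    have h2 : a ≠ 1 := by
      intro h
      apply hs1.2
      rw [h]
      rfl
    have h3 : s.length ≤ s.sum := by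
      have h4 : ∀ b ∈ s, 1 ≤ b := fun b hb => hs1.1 b (List.mem_cons_of_mem a hb)
      clear hlt hs3 hs2 hs1 hlen
      induction s with
      | nil => simp
      | cons c s ih =>
        rw [List.length_cons, List.sum_cons]
        have h5 := h4 c List.mem_cons_self
        have h6 := ih fun b hb => h4 b (List.mem_cons_of_mem c hb)
        omega
    rw [List.length_cons] at hlen
    rw [List.sum_cons] at hs2
    omega

/-- the complements -/
theorem exists_G (hInd : SInd) (r k : ℕ) (hr : 2 ≤ r) : ∃ G : Submodule ℚ ℝ, G ≤ Fil r k ∧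
    Fil r k ≤ Fil (r - 1) k ⊔ Prd r k ⊔ G ∧ Bd G (dW r k) := by
  rcases le_or_gt k r with h | h
  · refine ⟨⊥, bot_le, ?_, Bd.bot.mono (Nat.zero_le _)⟩
    exact (fil_le (by omega) h).trans (le_sup_left.trans le_sup_left)
  · have hfin := fil_fin r k
    obtain ⟨G', hG'⟩ := Submodule.exists_isCompl
      ((Fil (r - 1) k ⊔ Prd r k).comap (Fil r k).subtype)
    refine ⟨G'.map (Fil r k).subtype, Submodule.map_subtype_le _ _, ?_, ?_⟩
    · intro x hx
      have h1 : (⟨x, hx⟩ : Fil r k) ∈
          (Fil (r - 1) k ⊔ Prd r k).comap (Fil r k).subtype ⊔ G' := by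
        rw [hG'.sup_eq_top]
        exact Submodule.mem_top
      obtain ⟨y, hy, z, hz, hyz⟩ := Submodule.mem_sup.mp h1
      have h2 : x = (Fil r k).subtype y + (Fil r k).subtype z := by
        rw [← map_add, hyz]
        rfl
      rw [h2]
      exact Submodule.add_mem_sup hy (Submodule.mem_map_of_mem hz)
    · unfold Bd dW
      rw [if_pos h]
      refine (rank_map_le _ _).trans ?_
      rw [← (Submodule.quotientEquivOfIsCompl _ _ hG').rank_eq, ← finrank_eq_rank]
      exact_mod_cast hInd r k hr h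

end D860

open D860 in
/-- the dimension count -/
theorem sDimFour : SDimFour := by
  intro hMul hOne hSpan hInd h2 h3 h4 k hk
  have hex : ∀ r k : ℕ, ∃ G : Submodule ℚ ℝ, 2 ≤ r → G ≤ Fil r k ∧
      Fil r k ≤ Fil (r - 1) k ⊔ Prd r k ⊔ G ∧ Bd G (dW r k) := by
    intro r k
    rcases le_or_gt 2 r with hr | hr
    · obtain ⟨G, hG⟩ := exists_G hInd r k hr
      exact ⟨G, fun _ => hG⟩
    · exact ⟨⊥, fun h => absurd h (not_le.mpr hr)⟩
  choose G hG using hex
  have hpar : ∀ r k, 2 ≤ r → r ≤ 4 → ¬ (Even r ↔ Even k) → G r k = ⊥ := by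
    intro r k hr hr4 hrk
    apply Bd.eq_bot
    have hd := (hG r k hr).2.2
    have h0 : dW r k = 0 := by
      unfold dW
      split_ifs with hlt
      · have hodd : Odd (k - r) := by
          rw [← Nat.not_even_iff_odd, Nat.even_sub hlt.le]
          exact fun h => hrk h.symm
        have hW : Pool.Agent.H492.UB.W ℚ r (k - r) = ⊥ := by
          have hr' : r = 2 ∨ r = 3 ∨ r = 4 := by omega
          rcases hr' with rfl | rfl | rfl
          · exact h2 _ hodd
          · exact h3 _ hodd
          · exact h4 _ hodd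
        rw [hW, finrank_bot]
      · rfl
    rwa [h0] at hd
  have hS := hSpan hMul hOne G (fun r k hr => ⟨(hG r k hr).1, (hG r k hr).2.1⟩) hpar k hk
  simp only [sup_assoc] at hS
  have hOd : ∀ i, Odd i → Bd (Od i) 1 := by
    intro i hi
    unfold Od Bd
    rw [if_pos hi]
    have hfin := fil_fin 1 i
    rw [← finrank_eq_rank]
    exact_mod_cast hOne.1 i
  have hOd0 : ∀ i, ¬ Odd i → Od i = ⊥ := by
    intro i hi
    unfold Od
    rw [if_neg hi]
  have hGb : ∀ r k, 2 ≤ r → Bd (G r k) (dW r k) := fun r k hr => (hG r k hr).2.2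
  refine (quot_le _ _ _ _ ?_ hS)
  unfold bnd
  simp only [add_assoc]
  refine (hGb 4 k (by norm_num)).sup (Bd.sup ?_ (Bd.sup ?_ (Bd.sup ?_ ?_)))
  · refine Bd.iSup _ _ _ _ ?_ ?_
    · intro i hi hit
      have hi' : i ≤ k := hi
      have hodd : ¬ Odd i := by
        intro ho
        apply hit
        rw [Finset.mem_filter, Finset.mem_range]
        exact ⟨by omega, ho⟩
      rw [hOd0 i hodd, Submodule.bot_mul]
    · intro i hi
      rw [Finset.mem_filter] at hi
      have h := (hOd i hi.2).mul (hGb 3 (k - i) (by norm_num))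
      rwa [one_mul] at h
  · refine Bd.iSup _ _ _ _ ?_ ?_
    · rintro ⟨a, b⟩ hi hit
      have hi' : a ≤ b ∧ a + b ≤ k := hi
      dsimp only at hit ⊢
      by_cases ha : Odd a
      · by_cases hb : Odd b
        · exfalso
          apply hit
          rw [Finset.mem_filter, Finset.mem_product, Finset.mem_range, Finset.mem_range]
          exact ⟨⟨by dsimp only; omega, by dsimp only; omega⟩, ha, hb, hi'⟩
        · rw [hOd0 b hb, Submodule.mul_bot, Submodule.bot_mul]
      · rw [hOd0 a ha, Submodule.bot_mul, Submodule.bot_mul]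
    · rintro ⟨a, b⟩ hi
      rw [Finset.mem_filter] at hi
      have h := ((hOd a hi.2.1).mul (hOd b hi.2.2.1)).mul (hGb 2 (k - a - b) (by norm_num))
      rwa [one_mul, one_mul] at h
  · refine Bd.iSup _ _ _ _ ?_ ?_
    · intro i hi hit
      have hi' : 2 * i ≤ k := hi
      exfalso
      apply hit
      rw [Finset.mem_filter, Finset.mem_range]
      exact ⟨by omega, hi'⟩
    · intro i hi
      exact (hGb 2 i (by norm_num)).mul (hGb 2 (k - i) (by norm_num))
  · rw [Finset.card_eq_sum_ones]
    refine Bd.iSup _ _ _ _ ?_ ?_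
    · rintro ⟨a, b, c, d⟩ hi hit
      have hi' : a ≤ b ∧ b ≤ c ∧ c ≤ d ∧ a + b + c + d = k := hi
      dsimp only at hit ⊢
      by_cases ha : Odd a
      · by_cases hb : Odd b
        · by_cases hc : Odd c
          · by_cases hd : Odd d
            · exfalso
              apply hit
              unfold quads
              rw [Finset.mem_filter, Finset.mem_product, Finset.mem_product, Finset.mem_product,
                Finset.mem_range, Finset.mem_range, Finset.mem_range, Finset.mem_range]
              dsimp only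
              exact ⟨⟨by omega, by omega, by omega, by omega⟩, ⟨ha, hb, hc, hd⟩,
                ⟨hi'.1, hi'.2.1, hi'.2.2.1⟩, hi'.2.2.2⟩
            · rw [hOd0 d hd, Submodule.mul_bot]
          · rw [hOd0 c hc, Submodule.mul_bot, Submodule.bot_mul]
        · rw [hOd0 b hb, Submodule.mul_bot, Submodule.bot_mul, Submodule.bot_mul]
      · rw [hOd0 a ha, Submodule.bot_mul, Submodule.bot_mul, Submodule.bot_mul]
    · rintro ⟨a, b, c, d⟩ hi
      unfold quads at hi
      rw [Finset.mem_filter] at hi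
      obtain ⟨-, ⟨ha, hb, hc, hd⟩, -⟩ := hi
      have h := (((hOd a ha).mul (hOd b hb)).mul (hOd c hc)).mul (hOd d hd)
      simpa using h

end Pool.Agent.H492.RZ
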