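import Pool.Agent.H492.RZ.Stm

/-!
# sNon: all shuffle relations from the admissible ones
-/

set_option autoImplicit false

namespace Pool.Agent.H492.RZ

open Pool.Agent.H492.UB (sh sh1 sh_nil_left sh_nil_right sh_cons_cons)

namespace H51Non

variable {α M : Type} [AddCommGroup M]

/-- the sum of `f` over the shuffles of `u` and `v` -/
def S (f : List α → M) (u v : List α) : M := ((sh u v).map f).sum

@[simp] lemma S_nil_left (f : List α → M) (v : List α) : S f [] v = f v := by simp [S]

@[simp] lemma S_nil_right (f : List α → M) (u : List α) : S f u [] = f u := by simp [S]

lemma S_cons (f : List α → M) (x y : α) (u v : List α) :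
    S f (x :: u) (y :: v) = S (fun w => f (x :: w)) u (y :: v) + S (fun w => f (y :: w)) (x :: u) v := by
  simp only [S, sh_cons_cons, List.map_append, List.map_map, List.sum_append]
  rfl

lemma S_add (f g : List α → M) (u v : List α) :
    S (fun w => f w + g w) u v = S f u v + S g u v := by
  simp only [S]
  exact List.sum_map_add

lemma mem_sh_perm : ∀ (u v w : List α), w ∈ sh u v → w.Perm (u ++ v) := by
  intro u
  induction u with
  | nil => intro v w h; simp at h; rw [h]; simp
  | cons x u ih =>
    intro v
    induction v with
    | nil => intro w h; simp at h; rw [h]; simp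
    | cons y v ihv =>
      intro w h
      rw [sh_cons_cons, List.mem_append, List.mem_map, List.mem_map] at h
      rcases h with ⟨w', hw', rfl⟩ | ⟨w', hw', rfl⟩
      · exact (ih _ _ hw').cons x
      · exact ((ihv _ hw').cons y).trans List.perm_middle.symm

lemma S_eq_zero (f : List α → M) (u v : List α)
    (h : ∀ w : List α, w.length = u.length + v.length → f w = 0) : S f u v = 0 := by
  refine List.sum_eq_zero fun x hx => ?_
  rw [List.mem_map] at hx
  obtain ⟨w, hw, rfl⟩ := hx
  exact h w (by simpa using (mem_sh_perm u v w hw).length_eq)

lemma S_comm : ∀ (u v : List α) (f : List α → M), S f u v = S f v u := by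
  intro u
  induction u with
  | nil => intro v f; simp
  | cons x u ih =>
    intro v
    induction v with
    | nil => intro f; simp
    | cons y v ihv =>
      intro f
      rw [S_cons, S_cons, ih, ihv, add_comm]

lemma S_assoc : ∀ (u v z : List α) (f : List α → M),
    S (fun w => S f w z) u v = S (fun w => S f u w) v z := by
  intro u
  induction u with
  | nil => intro v z f; simp
  | cons x u ihu =>
    intro v
    induction v with
    | nil => intro z f; simp
    | cons y v ihv =>
      intro z
      induction z with
      | nil => intro f; simp
      | cons t z ihz =>
        intro f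
        have e1 : S (fun w => S f w (t :: z)) (x :: u) (y :: v)
            = S (fun w => S (fun w' => f (x :: w')) w (t :: z)) u (y :: v)
              + S (fun w => S (fun w' => f (y :: w')) w (t :: z)) (x :: u) v
              + S (fun w => S (fun w' => f (t :: w')) w z) (x :: u) (y :: v) := by
          rw [S_cons]
          simp only [S_cons]
          rw [S_add, S_add]
          exact add_add_add_comm _ _ _ _
        have e2 : S (fun w => S f (x :: u) w) (y :: v) (t :: z)
            = S (fun w => S (fun w' => f (x :: w')) u w) (y :: v) (t :: z)
              + S (fun w => S (fun w' => f (y :: w')) (x :: u) w) v (t :: z)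
              + S (fun w => S (fun w' => f (t :: w')) (x :: u) w) (y :: v) z := by
          rw [S_cons]
          simp only [S_cons]
          rw [S_add, S_add]
          exact (add_add_add_comm _ _ _ _).trans (add_assoc _ _ _).symm
        rw [e1, e2, ihu, ihv, ihz]

/-- triangularity -/
lemma tri (a b : α) (f : List α → M) (q : List α) (L : ℕ) : ∀ (m k : ℕ),
    k + m + (q.length + 1) = L →
    (∀ j < k + m, ∀ w : List α, j + (w.length + 1) = L →
      f (List.replicate j a ++ b :: w) = 0) →
    S (fun w => f (List.replicate k a ++ w)) (List.replicate m a) (b :: q)
      = f (List.replicate (k + m) a ++ b :: q) := by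
  intro m
  induction m with
  | zero => intro k _ _; simp
  | succ m ih =>
    intro k hL h
    rw [List.replicate_succ, S_cons]
    have e1 : S (fun w => f (List.replicate k a ++ b :: w)) (a :: List.replicate m a) q = 0 := by
      refine S_eq_zero _ _ _ fun w hw => ?_
      refine h k (by omega) w ?_
      simp only [List.length_cons, List.length_replicate] at hw
      omega
    have e2 : (fun w => f (List.replicate k a ++ a :: w))
        = fun w => f (List.replicate (k + 1) a ++ w) := by
      funext w
      rw [List.replicate_succ', List.append_assoc]
      rfl
    rw [e1, add_zero, e2, ih (k + 1) (by omega) (fun j hj w hw => h j (by omega) w hw),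
      show k + 1 + m = k + (m + 1) by ring]

lemma head_split (a : α) : ∀ w : List α, ∃ (m : ℕ) (q : List α), q.head? ≠ some a ∧
    w = List.replicate m a ++ q := by
  classical
  intro w
  induction w with
  | nil => exact ⟨0, [], by simp, by simp⟩
  | cons x w ih =>
    obtain ⟨m, q, hq, hw⟩ := ih
    by_cases hx : x = a
    · exact ⟨m + 1, q, hq, by rw [hw, hx, List.replicate_succ]; rfl⟩
    · exact ⟨0, x :: w, by simpa using hx, by simp⟩

/-- the words `a ^ i` shuffled with words not beginning with `a` span everything -/
lemma span (a : α) (f : List α → M) (L : ℕ)
    (h : ∀ (i : ℕ) (q : List α), q.head? ≠ some a → i + q.length = L →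
      S f (List.replicate i a) q = 0) (w : List α) (hw : w.length = L) : f w = 0 := by
  have key : ∀ (m : ℕ) (q : List α), q.head? ≠ some a → m + q.length = L →
      f (List.replicate m a ++ q) = 0 := by
    intro m
    induction m using Nat.strong_induction_on with
    | _ m ih =>
      intro q hq hL
      cases q with
      | nil =>
        have h1 := h m [] hq hL
        rw [S_nil_right] at h1
        simpa using h1
      | cons b q =>
        have hb : b ≠ a := by simpa using hq
        have h1 := h m (b :: q) hq hL
        have h2 := tri a b f q L m 0 (by simpa using hL)
          (fun j hj w hw => ih j (by omega) (b :: w) (by simpa using hb) (by simpa using hw))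
        simp only [List.replicate_zero, List.nil_append, zero_add] at h2
        rw [← h2]
        exact h1
  obtain ⟨m, q, hq, rfl⟩ := head_split a w
  exact key m q hq (by simpa using hw)

theorem non (a : α) (G : List α → M) (r : ℕ) (h0 : G (List.replicate r a) = 0)
    (h1 : ∀ u v : List α, u ≠ [] → v ≠ [] → v.head? ≠ some a → u.length + v.length = r →
      S G u v = 0) (u v : List α) (hu : u ≠ []) (hv : v ≠ []) (huv : u.length + v.length = r) :
    S G u v = 0 := by
  have hup : 0 < u.length := List.length_pos_iff.2 hu
  have hvp : 0 < v.length := List.length_pos_iff.2 hv
  refine span a (fun w => S G u w) v.length (fun i q hq hL => ?_) v rfl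
  rw [← S_assoc]
  by_cases hq0 : q = []
  · subst hq0
    simp only [S_nil_right]
    have hi : i = v.length := by simpa using hL
    refine span a (fun w => S G w (List.replicate i a)) u.length (fun j p hp hL' => ?_) u rfl
    rw [S_comm, S_assoc]
    by_cases hp0 : p = []
    · subst hp0
      simp only [S_nil_left]
      have hj : j = u.length := by simpa using hL'
      refine List.sum_eq_zero fun x hx => ?_
      rw [List.mem_map] at hx
      obtain ⟨w, hw, rfl⟩ := hx
      have hperm := mem_sh_perm _ _ _ hw
      have hw' : w = List.replicate r a := by
        rw [List.replicate_append_replicate] at hperm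
        rw [List.perm_replicate.1 hperm, show j + i = r by omega]
      rw [hw', h0]
    · refine S_eq_zero _ _ _ fun w hw => ?_
      rw [S_comm]
      simp only [List.length_replicate] at hw
      exact h1 w p (List.length_pos_iff.1 (by omega)) hp0 hp (by omega)
  · refine S_eq_zero _ _ _ fun w hw => ?_
    simp only [List.length_replicate] at hw
    exact h1 w q (List.length_pos_iff.1 (by omega)) hq0 hq (by omega)

end H51Non

theorem sNon : SNon := by
  intro α M _ _ a G r h0 h1 u v hu hv huv
  exact H51Non.non a G r h0 h1 u v hu hv huv

end Pool.Agent.H492.RZ
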