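import Pool.Agent.H492.RZ.Stm
import Pool.Agent.H492.UB.SOddPf

/-!
# There is nothing in odd degrees in depths two and three

Depth `r`, points `x₀ = 0, x₁, …, x_r`: the two reversals and `H (-w) = - H w` give the sign `-1` for the rotation
of the points. For `r = 2` this suffices. For `r = 3` write `F x₀ (x₂)` for the value at the cyclic word
`x₀ x₁ x₂ x₃` (which does not change if `x₁` and `x₃` are exchanged). The shuffle relation with the base point `0`
says `F 0 x + F 0 y + F 0 z = 0`, the one with the base point `x` says `F 0 x - F 0 z - F 0 y = 0`.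
-/

set_option autoImplicit false

namespace Pool.Agent.H492.RZ

open Pool.Agent.H492.UB

namespace Odd23

section two

variable {V M : Type} [AddCommGroup V] [AddCommGroup M] {H : List V → M}

theorem x2 (h : BA 2 H) (x y : V) : H [x, y] = - H [y, x] := by
  have h1 := h.1 [x] [y] (by simp) (by simp) rfl
  simp only [sh_cons_cons, sh_nil_left, sh_nil_right, List.map_cons, List.map_nil,
    List.sum_cons, List.sum_nil, List.reverse_cons, List.reverse_nil,
    List.nil_append, List.cons_append, add_zero] at h1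
  exact eq_neg_of_add_eq_zero_right h1

theorem y2 (h : BA 2 H) (a b : V) : H [a, b] = - H [b - a, b] := by
  have h1 := h.2 [a] [b - a] (by simp) (by simp) rfl
  simp only [sh_cons_cons, sh_nil_left, sh_nil_right, List.map_cons, List.map_nil, List.map_append,
    List.sum_cons, List.sum_nil, List.sum_append, ps_cons, ps_nil, zero_add, add_zero,
    add_sub_cancel, sub_add_cancel] at h1
  exact eq_neg_of_add_eq_zero_left h1

theorem step2 (h : BA 2 H) (hneg : ∀ w : List V, H (w.map (fun x => -x)) = - H w) {a b : V}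
    (a' b' : V) (h1 : a' = -b) (h2 : b' = a - b) : H [a, b] = - H [a', b'] := by
  have e3 := hneg [b, b - a]
  simp only [List.map_cons, List.map_nil, neg_sub] at e3
  rw [h1, h2, e3, neg_neg, y2 h a b, x2 h (b - a) b, neg_neg]

theorem vanish2 (h : BA 2 H) (hneg : ∀ w : List V, H (w.map (fun x => -x)) = - H w)
    (h2 : ∀ m : M, m + m = 0 → m = 0) (a b : V) : H [a, b] = 0 := by
  apply h2
  have e1 : H [a, b] = - H [-b, a - b] := step2 h hneg _ _ rfl rfl
  have e2 : H [-b, a - b] = - H [b - a, -a] := step2 h hneg _ _ (by abel) (by abel)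
  have e3 : H [b - a, -a] = - H [a, b] := step2 h hneg _ _ (by abel) (by abel)
  nth_rewrite 1 [e1]
  rw [e2, e3, neg_neg, neg_add_cancel]

end two

section three

variable {V M : Type} [AddCommGroup V] [AddCommGroup M] {H : List V → M}

/-- the shuffle relation -/
theorem x3 (h : BA 3 H) (x y z : V) : H [z, y, x] + H [z, x, y] + H [x, z, y] = 0 := by
  have h1 := h.1 [x] [y, z] (by simp) (by simp) rfl
  simp only [sh_cons_cons, sh_nil_left, sh_nil_right, List.map_cons, List.map_nil,
    List.sum_cons, List.sum_nil, List.reverse_cons, List.reverse_nil,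
    List.nil_append, List.cons_append, add_zero] at h1
  rw [← h1]
  abel

/-- reversal -/
theorem rx3 (h : BA 3 H) (x y z : V) : H [z, y, x] = H [x, y, z] := by
  have h1 := x3 h x y z
  have h2 := x3 h z y x
  have h3 : H [z, y, x] + (H [z, x, y] + H [x, z, y]) =
      H [x, y, z] + (H [z, x, y] + H [x, z, y]) := by
    rw [← add_assoc, h1, add_comm (H [z, x, y]), ← add_assoc, h2]
  exact add_right_cancel h3

/-- the second shuffle relation -/
theorem y3 (h : BA 3 H) (x y z : V) : H [x, x + y, x + y + z] + H [y, y + x, y + x + z] +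
    H [y, y + z, y + z + x] = 0 := by
  have h1 := h.2 [x] [y, z] (by simp) (by simp) rfl
  simp only [sh_cons_cons, sh_nil_left, sh_nil_right, List.map_cons, List.map_nil, List.map_append,
    List.sum_cons, List.sum_nil, List.sum_append, ps_cons, ps_nil, zero_add, add_zero] at h1
  rw [← h1]
  abel

/-- the second reversal -/
theorem ry3 (h : BA 3 H) (a b c : V) : H [a, b, c] = H [c - b, c - a, c] := by
  have h1 := y3 h a (b - a) (c - b)
  have h2 := y3 h (c - b) (b - a) a
  have k1 : a + (b - a) = b := by abel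
  have k2 : b + (c - b) = c := by abel
  have k3 : b - a + a = b := by abel
  have k4 : b - a + (c - b) = c - a := by abel
  have k5 : c - a + a = c := by abel
  have k6 : c - b + (b - a) = c - a := by abel
  rw [k1, k2, k3, k2, k4, k5] at h1
  rw [k6, k5, k4, k5, k3, k2] at h2
  have h3 : H [a, b, c] + (H [b - a, b, c] + H [b - a, c - a, c]) =
      H [c - b, c - a, c] + (H [b - a, b, c] + H [b - a, c - a, c]) := by
    rw [← add_assoc, h1, add_comm (H [b - a, b, c]), ← add_assoc, h2]
  exact add_right_cancel h3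

/-- the rotation of the four points has the sign `-1` -/
theorem rot3 (h : BA 3 H) (hneg : ∀ w : List V, H (w.map (fun x => -x)) = - H w) {a b c : V}
    (a' b' c' : V) (h1 : a' = -c) (h2 : b' = a - c) (h3 : c' = b - c) :
    H [a, b, c] = - H [a', b', c'] := by
  have e3 := hneg [c, c - a, c - b]
  simp only [List.map_cons, List.map_nil, neg_sub] at e3
  rw [h1, h2, h3, e3, neg_neg, ry3 h a b c, rx3 h c (c - a) (c - b)]

theorem vanish3 (h : BA 3 H) (hneg : ∀ w : List V, H (w.map (fun x => -x)) = - H w)
    (h2 : ∀ m : M, m + m = 0 → m = 0) (y x z : V) : H [y, x, z] = 0 := by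
  apply h2
  -- the base point `0`
  have e1 := x3 h x y z
  rw [rx3 h y x z] at e1
  -- the base point `x`
  have e2 := x3 h (y - x) (-x) (z - x)
  have r1 : H [y, z, x] = - H [-x, y - x, z - x] := rot3 h hneg _ _ _ rfl rfl rfl
  have r2 : H [z, y, x] = - H [-x, z - x, y - x] := rot3 h hneg _ _ _ rfl rfl rfl
  have r3 : H [y, x, z] = - H [-z, y - z, x - z] := rot3 h hneg _ _ _ rfl rfl rfl
  have r4 : H [-z, y - z, x - z] = - H [z - x, -x, y - x] :=
    rot3 h hneg _ _ _ (by abel) (by abel) (by abel)
  rw [r4, neg_neg] at r3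
  rw [← r3, rx3 h (-x) (y - x) (z - x), rx3 h (-x) (z - x) (y - x), eq_neg_of_add_eq_zero_left
    ((add_comm _ _).trans (add_eq_zero_iff_eq_neg.2 r1)), eq_neg_of_add_eq_zero_left
    ((add_comm _ _).trans (add_eq_zero_iff_eq_neg.2 r2))] at e2
  rw [rx3 h y z x] at e1
  have e3 : H [y, x, z] + H [y, x, z] = (H [z, y, x] + H [y, x, z] + H [y, z, x]) +
      (H [y, x, z] + -H [y, z, x] + -H [z, y, x]) := by abel
  rw [e3, e1, e2, add_zero]

end three

end Odd23

open Odd23 T3odd MvPolynomial

theorem sOdd2 : SOdd2 := by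
  intro e he
  rw [eq_bot_iff]
  intro f hf
  obtain ⟨hf1, hf2⟩ := hf
  rw [Submodule.mem_bot]
  have h1 := vanish2 (H := fun l : List (MvPolynomial (Fin 2) ℚ) => ev f l) hf2
    (fun w => ev_neg f e hf1 he w) (fun m hm => by
      have : (2 : MvPolynomial (Fin 2) ℚ) * m = 0 := by rw [two_mul]; exact hm
      exact (mul_eq_zero.1 this).resolve_left two_ne_zero) (X 0) (X 1)
  have h2 : ev f [(X 0 : MvPolynomial (Fin 2) ℚ), X 1] = f := by
    unfold ev
    have e1 : (fun i : Fin 2 => [(X 0 : MvPolynomial (Fin 2) ℚ), X 1].getD i 0) = X := by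
      funext i
      fin_cases i <;> rfl
    rw [e1, aeval_X_left_apply]
  rw [← h2]
  exact h1

theorem sOdd3 : SOdd3 := by
  intro e he
  rw [eq_bot_iff]
  intro f hf
  obtain ⟨hf1, hf2⟩ := hf
  rw [Submodule.mem_bot]
  have h1 := vanish3 (H := fun l : List (MvPolynomial (Fin 3) ℚ) => ev f l) hf2
    (fun w => ev_neg f e hf1 he w) (fun m hm => by
      have : (2 : MvPolynomial (Fin 3) ℚ) * m = 0 := by rw [two_mul]; exact hm
      exact (mul_eq_zero.1 this).resolve_left two_ne_zero) (X 0) (X 1) (X 2)
  have h2 : ev f [(X 0 : MvPolynomial (Fin 3) ℚ), X 1, X 2] = f := by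
    unfold ev
    have e1 : (fun i : Fin 3 => [(X 0 : MvPolynomial (Fin 3) ℚ), X 1, X 2].getD i 0) = X := by
      funext i
      fin_cases i <;> rfl
    rw [e1, aeval_X_left_apply]
  rw [← h2]
  exact h1

end Pool.Agent.H492.RZ
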