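import Pool.Agent.H492.RZ.Stm

set_option autoImplicit false

namespace Pool.Agent.H492.RZ

open Module
open Pool.Agent.Q187.ZD.DS (mzv trunc)

namespace OneH662

/-- the value of weight `k` and depth at most one -/
noncomputable def v (k : ℕ) : ℝ := if k = 0 then 1 else mzv [k]

theorem fil_le (k : ℕ) : Fil 1 k ≤ Submodule.span ℚ {v k} := by
  refine Submodule.span_le.2 ?_
  rintro x ⟨s, hs, hk, hl, rfl⟩
  match s, hs, hk, hl with
  | [], _, hk, _ =>
    have h0 : k = 0 := by simpa using hk.symm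
    subst h0
    exact Submodule.subset_span (by simp [v, mzv])
  | [a], hs, hk, _ =>
    have ha : a = k := by simpa using hk
    subst ha
    have h1 : 1 ≤ a := hs.1 a (by simp)
    exact Submodule.subset_span (by rw [Set.mem_singleton_iff, v, if_neg (by omega)])
  | a :: b :: l, _, _, hl => simp at hl

theorem v_mem {k : ℕ} (hk : k ≠ 1) : v k ∈ Fil 1 k := by
  by_cases h : k = 0
  · subst h
    exact Submodule.subset_span ⟨[], ⟨by simp, by simp⟩, rfl, by simp, by simp [v, mzv]⟩
  · refine Submodule.subset_span ⟨[k], ⟨?_, by simpa using hk⟩, by simp, by simp, by simp [v, h]⟩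
    intro a ha
    rw [List.mem_singleton] at ha
    omega

theorem mzv_single (k : ℕ) : mzv [k] = ∑' n : ℕ, 1 / ((n + 1 : ℕ) : ℝ) ^ k := by
  rfl

theorem v_even {k : ℕ} (hk : Even k) : ∃ q : ℚ, q ≠ 0 ∧ v k = (q : ℝ) * Real.pi ^ k := by
  by_cases h0 : k = 0
  · subst h0
    exact ⟨1, one_ne_zero, by simp [v]⟩
  obtain ⟨n, rfl⟩ := hk
  have hn : n ≠ 0 := by omega
  have h2 : n + n = 2 * n := by ring
  rw [h2]
  have hs := hasSum_zeta_nat hn
  have h1 := (hasSum_nat_add_iff' (f := fun m : ℕ => 1 / (m : ℝ) ^ (2 * n)) 1).2 hs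
  have h3 : ∑ i ∈ Finset.range 1, (1 : ℝ) / ((i : ℕ) : ℝ) ^ (2 * n) = 0 := by
    rw [Finset.sum_range_one, Nat.cast_zero, zero_pow (by omega), div_zero]
  rw [h3, sub_zero] at h1
  have h4 : v (2 * n) = (-1 : ℝ) ^ (n + 1) * (2 : ℝ) ^ (2 * n - 1) * Real.pi ^ (2 * n) *
      bernoulli (2 * n) / (2 * n).factorial := by
    unfold v
    rw [if_neg (by omega), mzv_single]
    exact h1.tsum_eq
  have hpos : 0 < v (2 * n) := by
    unfold v
    rw [if_neg (by omega), mzv_single]
    exact h1.summable.tsum_pos (fun m => by positivity) 0 (by norm_num)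
  have h5 : v (2 * n) = (((-1) ^ (n + 1) * 2 ^ (2 * n - 1) * bernoulli (2 * n) /
      (2 * n).factorial : ℚ) : ℝ) * Real.pi ^ (2 * n) := by
    rw [h4]
    push_cast
    ring
  refine ⟨_, ?_, h5⟩
  intro h6
  rw [h6] at h5
  rw [h5] at hpos
  simp at hpos

theorem even_mul {i j : ℕ} (hi : Even i) (hj : Even j) : Fil 1 i * Fil 1 j ≤ Fil 1 (i + j) := by
  rw [Submodule.mul_le]
  intro m hm n hn
  obtain ⟨a, rfl⟩ := Submodule.mem_span_singleton.1 (fil_le i hm)
  obtain ⟨b, rfl⟩ := Submodule.mem_span_singleton.1 (fil_le j hn)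
  obtain ⟨p, -, hp⟩ := v_even hi
  obtain ⟨q, -, hq⟩ := v_even hj
  obtain ⟨r, hr, hr'⟩ := v_even (hi.add hj)
  have h1 : (i + j) ≠ 1 := by
    intro h
    have := hi.add hj
    rw [h] at this
    exact absurd this (by decide)
  have h2 : (a • v i) * (b • v j) = (a * b * p * q / r) • v (i + j) := by
    rw [hp, hq, hr']
    simp only [Rat.smul_def]
    have hr0 : (r : ℝ) ≠ 0 := by exact_mod_cast hr
    push_cast
    rw [pow_add]
    field_simp
  rw [h2]
  exact Submodule.smul_mem _ _ (v_mem h1)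

end OneH662

/-- depth one: the values of weight `k` -/
theorem sOne : SOne := by
  refine ⟨fun k => ?_, fun i j hi hj => OneH662.even_mul hi hj⟩
  exact (Submodule.finrank_mono (OneH662.fil_le k)).trans
    ((finrank_span_le_card ({OneH662.v k} : Set ℝ)).trans (by simp))

end Pool.Agent.H492.RZ

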