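import Pool.Agent.H492.RZ.Stm
import Pool.Agent.H492.UB.SSepPf

/-!
# RZ: separating polynomials over `F_2` for every `r` (helper740)
-/

set_option autoImplicit false

namespace Pool.Agent.H492.RZ

open MvPolynomial
open Pool.Agent.H492.UB Pool.Agent.H492.UB.SepAux

namespace SepEAux

theorem one : SepK 1 1 0 1 := by
  refine ⟨Unit, inferInstance, fun _ => 1, by simp, fun _ => isHomogeneous_one _ _, fun F hF => ?_⟩
  have hg : LinearIndependent (ZMod 2) (fun _ : Fin 1 => (fun _ => 1 : V 1)) := by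
    rw [linearIndependent_unique_iff]
    intro h
    have := congrFun h 0
    simp at this
  have h1 := hF _ hg
  funext j
  cases j
  simpa using h1

theorem many (r : ℕ) : ∀ m : ℕ, m + 2 ≤ r →
    ∃ κ : ℕ, SepK r (m + 2) κ (∏ i : Fin (m + 2), (2 ^ r - 2 ^ (i : ℕ))) := by
  intro m
  induction m with
  | zero =>
    intro h
    refine ⟨(2 ^ r - 1) * (2 ^ r - 2) - 1, ?_⟩
    have h2 := sepK_two r h
    have e : ∏ i : Fin (0 + 2), (2 ^ r - 2 ^ (i : ℕ)) = (2 ^ r - 1) * (2 ^ r - 2) := by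
      rw [Fin.prod_univ_two]
      simp
    rw [e]
    exact h2
  | succ m ih =>
    intro h
    obtain ⟨κ, hκ⟩ := ih (by omega)
    refine ⟨κ + (2 ^ r - 2 ^ (m + 1 + 1) - 1), ?_⟩
    have h2 := sepK_succ r (m + 1) _ _ (by omega) hκ
    have e : ∏ i : Fin (m + 1 + 2), (2 ^ r - 2 ^ (i : ℕ)) =
        (∏ i : Fin (m + 2), (2 ^ r - 2 ^ (i : ℕ))) * (2 ^ r - 2 ^ (m + 1 + 1)) := by
      rw [Fin.prod_univ_castSucc]
      rfl
    rw [e]
    exact h2

end SepEAux

open SepEAux in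
theorem sSepE : SSepE := by
  intro r hr
  rcases Nat.lt_or_ge 1 r with h | h
  · obtain ⟨m, rfl⟩ : ∃ m, r = m + 2 := ⟨r - 2, by omega⟩
    obtain ⟨κ, hκ⟩ := many (m + 2) m le_rfl
    exact ⟨κ, sep_of _ _ _ hκ rfl⟩
  · obtain rfl : r = 1 := by omega
    exact ⟨0, sep_of 1 0 1 one (by simp)⟩

end Pool.Agent.H492.RZ
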