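import Pool.Agent.H492.RZ.Stm

/-!
# `SSpan`: structure of depth four in even weights
-/

set_option autoImplicit false

namespace Pool.Agent.H492.RZ

namespace SpanAux

/-- abstract form of the elimination of products -/
theorem prd_elim {F : ℕ → ℕ → Submodule ℚ ℝ} {r k : ℕ} {X N : Submodule ℚ ℝ}
    (h : ∀ r₁ r₂ k₁ k₂, 1 ≤ r₁ → 1 ≤ r₂ → r₁ + r₂ = r → k₁ + k₂ = k →
      X * (F r₁ k₁ * F r₂ k₂) ≤ N) :
    X * Submodule.span ℚ {x | ∃ r₁ r₂ k₁ k₂ : ℕ, 1 ≤ r₁ ∧ 1 ≤ r₂ ∧ r₁ + r₂ = r ∧ k₁ + k₂ = k ∧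
    ∃ y ∈ F r₁ k₁, ∃ z ∈ F r₂ k₂, x = y * z} ≤ N := by
  rw [Submodule.mul_le]
  intro m hm n hn
  induction hn using Submodule.span_induction with
  | mem x hx =>
    obtain ⟨r₁, r₂, k₁, k₂, h1, h2, h3, h4, y, hy, z, hz, rfl⟩ := hx
    exact h r₁ r₂ k₁ k₂ h1 h2 h3 h4 (Submodule.mul_mem_mul hm (Submodule.mul_mem_mul hy hz))
  | zero => simp
  | add x y _ _ hx hy => rw [mul_add]; exact N.add_mem hx hy
  | smul a x _ hx => rw [mul_smul_comm]; exact N.smul_mem a hx

section

variable {F G : ℕ → ℕ → Submodule ℚ ℝ} {P : ℕ → ℕ → Submodule ℚ ℝ}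

/-- the hypotheses -/
structure Hyp (F P G : ℕ → ℕ → Submodule ℚ ℝ) : Prop where
  mono : ∀ r k, F r k ≤ F (r + 1) k
  one : (1 : Submodule ℚ ℝ) ≤ F 1 0
  mul : ∀ r₁ r₂ k₁ k₂, F r₁ k₁ * F r₂ k₂ ≤ F (r₁ + r₂) (k₁ + k₂)
  ee : ∀ i j, Even i → Even j → F 1 i * F 1 j ≤ F 1 (i + j)
  pel : ∀ (r k : ℕ) (X N : Submodule ℚ ℝ),
    (∀ r₁ r₂ k₁ k₂, 1 ≤ r₁ → 1 ≤ r₂ → r₁ + r₂ = r → k₁ + k₂ = k →
      X * (F r₁ k₁ * F r₂ k₂) ≤ N) → X * P r k ≤ N
  le : ∀ r k, 2 ≤ r → F r k ≤ F (r - 1) k ⊔ P r k ⊔ G r k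
  par : ∀ r k, 2 ≤ r → r ≤ 4 → ¬ (Even r ↔ Even k) → G r k = ⊥

variable (h : Hyp F P G) (hG2 : ∀ j, G 2 j ≤ F 2 j)
include h

theorem el (r k : ℕ) (hr : 2 ≤ r) (X N : Submodule ℚ ℝ) (h1 : X * F (r - 1) k ≤ N)
    (h2 : ∀ r₁ r₂ k₁ k₂, 1 ≤ r₁ → 1 ≤ r₂ → r₁ + r₂ = r → k₁ + k₂ = k →
      X * (F r₁ k₁ * F r₂ k₂) ≤ N) (h3 : X * G r k ≤ N) : X * F r k ≤ N := by
  calc X * F r k ≤ X * (F (r - 1) k ⊔ P r k ⊔ G r k) := mul_le_mul_right (h.le r k hr) X
    _ = X * F (r - 1) k ⊔ X * P r k ⊔ X * G r k := by rw [Submodule.mul_sup, Submodule.mul_sup]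
    _ ≤ N := sup_le (sup_le h1 (h.pel r k X N h2)) h3

theorem le1 (X : Submodule ℚ ℝ) : X ≤ F 1 0 * X := by
  calc X = 1 * X := (one_mul X).symm
    _ ≤ F 1 0 * X := mul_le_mul_left h.one X

/-- (A) -/
theorem elA (j : ℕ) (hj : Odd j) (X N : Submodule ℚ ℝ)
    (h1 : ∀ a b, Even a → Odd b → a + b = j → X * (F 1 a * F 1 b) ≤ N) : X * F 2 j ≤ N := by
  refine el h 2 j le_rfl X N ?_ ?_ ?_
  · exact (mul_le_mul_right (le1 h (F 1 j)) X).trans (h1 0 j (by simp) hj (by simp))
  · intro r₁ r₂ k₁ k₂ hr1 hr2 hr hk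
    obtain rfl : r₁ = 1 := by omega
    obtain rfl : r₂ = 1 := by omega
    rcases Nat.even_or_odd k₁ with he | ho
    · exact h1 k₁ k₂ he (by rw [Nat.odd_iff] at *; rw [Nat.even_iff] at *; omega) hk
    · rw [mul_comm (F 1 k₁)]
      exact h1 k₂ k₁ (by rw [Nat.odd_iff] at *; rw [Nat.even_iff] at *; omega) ho (by omega)
  · rw [h.par 2 j le_rfl (by norm_num) (by simp [hj])]
    simp

/-- (A') -/
theorem elA' (j : ℕ) (hj : Even j) (X N : Submodule ℚ ℝ) (h0 : X * F 1 j ≤ N)
    (h1 : ∀ a b, Odd a → Odd b → a + b = j → X * (F 1 a * F 1 b) ≤ N) (h2 : X * G 2 j ≤ N) :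
    X * F 2 j ≤ N := by
  refine el h 2 j le_rfl X N h0 ?_ h2
  intro r₁ r₂ k₁ k₂ hr1 hr2 hr hk
  obtain rfl : r₁ = 1 := by omega
  obtain rfl : r₂ = 1 := by omega
  rcases Nat.even_or_odd k₁ with he | ho
  · have he2 : Even k₂ := by rw [Nat.even_iff] at *; omega
    have h3 := h.ee k₁ k₂ he he2
    rw [hk] at h3
    exact (mul_le_mul_right h3 X).trans h0
  · exact h1 k₁ k₂ ho (by rw [Nat.odd_iff] at *; rw [Nat.even_iff] at *; omega) hk

/-- (B) -/
theorem elB (j : ℕ) (hj : Even j) (X N : Submodule ℚ ℝ)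
    (h1 : ∀ a b, Even a → a + b = j → X * (F 1 a * F 2 b) ≤ N) : X * F 3 j ≤ N := by
  have key : ∀ k₁ k₂, k₁ + k₂ = j → X * (F 1 k₁ * F 2 k₂) ≤ N := by
    intro k₁ k₂ hk
    rcases Nat.even_or_odd k₁ with he | ho
    · exact h1 k₁ k₂ he hk
    · rw [← mul_assoc]
      refine elA h k₂ (by rw [Nat.odd_iff] at *; rw [Nat.even_iff] at *; omega) _ N ?_
      intro a b ha hb hab
      have e : X * F 1 k₁ * (F 1 a * F 1 b) = X * (F 1 a * (F 1 k₁ * F 1 b)) := by ring
      rw [e]
      refine le_trans ?_ (h1 a (k₁ + b) ha (by omega))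
      exact mul_le_mul_right (mul_le_mul_right (h.mul 1 1 k₁ b) _) X
  refine el h 3 j (by norm_num) X N ?_ ?_ ?_
  · exact (mul_le_mul_right (le1 h (F 2 j)) X).trans (h1 0 j (by simp) (by simp))
  · intro r₁ r₂ k₁ k₂ hr1 hr2 hr hk
    rcases (show r₁ = 1 ∧ r₂ = 2 ∨ r₁ = 2 ∧ r₂ = 1 by omega) with ⟨rfl, rfl⟩ | ⟨rfl, rfl⟩
    · exact key k₁ k₂ hk
    · rw [mul_comm (F 2 k₁)]
      exact key k₂ k₁ (by omega)
  · rw [h.par 3 j (by norm_num) (by norm_num) (by
      simp only [hj, iff_true]; decide)]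
    simp

/-- (B') -/
theorem elB' (j : ℕ) (hj : Odd j) (X N : Submodule ℚ ℝ) (h0 : X * F 2 j ≤ N)
    (h1 : ∀ a b c, Odd a → Odd b → Odd c → a + b + c = j → X * (F 1 a * F 1 b * F 1 c) ≤ N)
    (h2 : ∀ a b, Odd a → a + b = j → X * (F 1 a * G 2 b) ≤ N) (h3 : X * G 3 j ≤ N) :
    X * F 3 j ≤ N := by
  have key : ∀ k₁ k₂, k₁ + k₂ = j → X * (F 1 k₁ * F 2 k₂) ≤ N := by
    intro k₁ k₂ hk
    rcases Nat.even_or_odd k₁ with he | ho
    · rw [← mul_assoc]
      refine elA h k₂ (by rw [Nat.odd_iff] at *; rw [Nat.even_iff] at *; omega) _ N ?_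
      intro a b ha hb hab
      have e : X * F 1 k₁ * (F 1 a * F 1 b) = X * ((F 1 k₁ * F 1 a) * F 1 b) := by ring
      rw [e]
      refine le_trans (mul_le_mul_right ?_ X) h0
      refine (mul_le_mul_left (h.ee k₁ a he ha) _).trans ?_
      have h4 := h.mul 1 1 (k₁ + a) b
      rwa [show k₁ + a + b = j by omega] at h4
    · rw [← mul_assoc]
      have he2 : Even k₂ := by rw [Nat.odd_iff] at *; rw [Nat.even_iff] at *; omega
      refine elA' h k₂ he2 _ N ?_ ?_ ?_
      · rw [mul_assoc]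
        refine le_trans (mul_le_mul_right ?_ X) h0
        have h4 := h.mul 1 1 k₁ k₂
        rwa [hk] at h4
      · intro a b ha hb hab
        have e : X * F 1 k₁ * (F 1 a * F 1 b) = X * (F 1 k₁ * F 1 a * F 1 b) := by ring
        rw [e]
        exact h1 k₁ a b ho ha hb (by omega)
      · rw [mul_assoc]
        exact h2 k₁ k₂ ho hk
  refine el h 3 j (by norm_num) X N h0 ?_ h3
  intro r₁ r₂ k₁ k₂ hr1 hr2 hr hk
  rcases (show r₁ = 1 ∧ r₂ = 2 ∨ r₁ = 2 ∧ r₂ = 1 by omega) with ⟨rfl, rfl⟩ | ⟨rfl, rfl⟩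
  · exact key k₁ k₂ hk
  · rw [mul_comm (F 2 k₁)]
    exact key k₂ k₁ (by omega)

include hG2 in
/-- (C) -/
theorem main (k : ℕ) (hk : Even k) (N : Submodule ℚ ℝ) (t3 : F 3 k ≤ N) (t4 : G 4 k ≤ N)
    (og3 : ∀ i j, Odd i → i + j = k → F 1 i * G 3 j ≤ N)
    (oog2 : ∀ a b c, Odd a → Odd b → a + b + c = k → F 1 a * F 1 b * G 2 c ≤ N)
    (g2g2 : ∀ a b, a + b = k → G 2 a * G 2 b ≤ N)
    (oooo : ∀ a b c d, Odd a → Odd b → Odd c → Odd d → a + b + c + d = k →
      F 1 a * F 1 b * F 1 c * F 1 d ≤ N) : F 4 k ≤ N := by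
  have m13 : ∀ i j, i + j = k → F 1 i * F 3 j ≤ N := by
    intro i j hij
    rcases Nat.even_or_odd i with he | ho
    · refine elB h j (by rw [Nat.even_iff] at *; omega) _ N ?_
      intro a b ha hab
      rw [← mul_assoc]
      refine (mul_le_mul_left (h.ee i a he ha) _).trans ?_
      refine (h.mul 1 2 (i + a) b).trans ?_
      rwa [show i + a + b = k by omega]
    · refine elB' h j (by rw [Nat.odd_iff] at *; rw [Nat.even_iff] at *; omega) _ N ?_ ?_ ?_ ?_
      · refine (h.mul 1 2 i j).trans ?_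
        rwa [hij]
      · intro a b c ha hb hc habc
        rw [← mul_assoc, ← mul_assoc]
        exact oooo i a b c ho ha hb hc (by omega)
      · intro a b ha hab
        rw [← mul_assoc]
        exact oog2 i a b ho ha (by omega)
      · exact og3 i j ho hij
  have m22 : ∀ i j, i + j = k → F 2 i * F 2 j ≤ N := by
    intro i j hij
    rcases Nat.even_or_odd i with he | ho
    · have hj : Even j := by rw [Nat.even_iff] at *; omega
      refine elA' h j hj _ N ?_ ?_ ?_
      · refine (h.mul 2 1 i j).trans ?_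
        rwa [hij]
      · intro a b ha hb hab
        rw [mul_comm (F 2 i)]
        refine elA' h i he _ N ?_ ?_ ?_
        · rw [mul_assoc]
          refine (mul_le_mul_right (h.mul 1 1 b i) _).trans ?_
          refine (h.mul 1 2 a (b + i)).trans ?_
          rwa [show a + (b + i) = k by omega]
        · intro c d hc hd hcd
          rw [← mul_assoc]
          exact oooo a b c d ha hb hc hd (by omega)
        · exact oog2 a b i ha hb (by omega)
      · rw [mul_comm (F 2 i)]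
        refine elA' h i he _ N ?_ ?_ ?_
        · have hg : G 2 j ≤ F 2 j := hG2 j
          refine (mul_le_mul_left hg _).trans ?_
          refine (h.mul 2 1 j i).trans ?_
          rwa [show j + i = k by omega]
        · intro c d hc hd hcd
          rw [mul_comm (G 2 j)]
          exact oog2 c d j hc hd (by omega)
        · exact g2g2 j i (by omega)
    · have hj : Odd j := by rw [Nat.odd_iff] at *; rw [Nat.even_iff] at *; omega
      refine elA h j hj _ N ?_
      intro a b ha hb hab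
      rw [mul_comm (F 2 i)]
      refine elA h i ho _ N ?_
      intro c d hc hd hcd
      have e : F 1 a * F 1 b * (F 1 c * F 1 d) = (F 1 a * F 1 c) * (F 1 b * F 1 d) := by ring
      rw [e]
      refine (mul_le_mul' (h.ee a c ha hc) (h.mul 1 1 b d)).trans ?_
      refine (h.mul 1 2 (a + c) (b + d)).trans ?_
      rwa [show a + c + (b + d) = k by omega]
  have h5 : (1 : Submodule ℚ ℝ) * F 4 k ≤ N := by
    refine el h 4 k (by norm_num) 1 N ?_ ?_ ?_
    · rw [one_mul]; exact t3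
    · intro r₁ r₂ k₁ k₂ hr1 hr2 hr hk
      rw [one_mul]
      rcases (show r₁ = 1 ∧ r₂ = 3 ∨ r₁ = 2 ∧ r₂ = 2 ∨ r₁ = 3 ∧ r₂ = 1 by omega) with
        ⟨rfl, rfl⟩ | ⟨rfl, rfl⟩ | ⟨rfl, rfl⟩
      · exact m13 k₁ k₂ hk
      · exact m22 k₁ k₂ hk
      · rw [mul_comm (F 3 k₁)]
        exact m13 k₂ k₁ (by omega)
    · rw [one_mul]; exact t4
  rwa [one_mul] at h5

end

theorem fil_mono {r r' k : ℕ} (h : r ≤ r') : Fil r k ≤ Fil r' k := by
  refine Submodule.span_mono ?_
  rintro x ⟨s, h1, h2, h3, h4⟩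
  exact ⟨s, h1, h2, h3.trans h, h4⟩

theorem one_le : (1 : Submodule ℚ ℝ) ≤ Fil 1 0 := by
  rw [Submodule.one_le]
  refine Submodule.subset_span ⟨[], ⟨by simp, by simp⟩, by simp, by simp, ?_⟩
  rfl

end SpanAux

open SpanAux in
/-- the structure of depth four in even weights -/
theorem sSpan : SSpan := by
  intro hMul hOne G hG hpar k hk
  have hyp : Hyp Fil Prd G :=
    { mono := fun r k => fil_mono (Nat.le_succ r)
      one := one_le
      mul := hMul
      ee := hOne.2
      pel := fun r k X N hX => prd_elim hX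
      le := fun r k hr => (hG r k hr).2
      par := hpar }
  set N : Submodule ℚ ℝ := Fil 3 k ⊔ G 4 k ⊔
    (⨆ i ∈ {i | i ≤ k}, Od i * G 3 (k - i)) ⊔
    (⨆ p ∈ {p : ℕ × ℕ | p.1 ≤ p.2 ∧ p.1 + p.2 ≤ k}, Od p.1 * Od p.2 * G 2 (k - p.1 - p.2)) ⊔
    (⨆ i ∈ {i | 2 * i ≤ k}, G 2 i * G 2 (k - i)) ⊔
    (⨆ p ∈ {p : ℕ × ℕ × ℕ × ℕ | p.1 ≤ p.2.1 ∧ p.2.1 ≤ p.2.2.1 ∧ p.2.2.1 ≤ p.2.2.2 ∧
      p.1 + p.2.1 + p.2.2.1 + p.2.2.2 = k}, Od p.1 * Od p.2.1 * Od p.2.2.1 * Od p.2.2.2) with hN
  have hOd : ∀ i, Odd i → Od i = Fil 1 i := by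
    intro i hi
    rw [Od, if_pos hi]
  have oog2' : ∀ a b c, a ≤ b → Odd a → Odd b → a + b + c = k →
      Fil 1 a * Fil 1 b * G 2 c ≤ N := by
    intro a b c hab ha hb habc
    rw [hN]
    refine le_trans ?_ (le_sup_left.trans le_sup_left |> le_trans le_sup_right)
    refine le_trans ?_ (le_iSup₂ (f := fun (p : ℕ × ℕ)
      (_ : p ∈ {p : ℕ × ℕ | p.1 ≤ p.2 ∧ p.1 + p.2 ≤ k}) =>
      Od p.1 * Od p.2 * G 2 (k - p.1 - p.2)) (a, b) ⟨hab, by simp only; omega⟩)
    simp only
    rw [hOd a ha, hOd b hb, show k - a - b = c by omega]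
  have oooo' : ∀ a b c d, a ≤ b → b ≤ c → c ≤ d → Odd a → Odd b → Odd c → Odd d →
      a + b + c + d = k → Fil 1 a * Fil 1 b * Fil 1 c * Fil 1 d ≤ N := by
    intro a b c d hab hbc hcd ha hb hc hd habcd
    rw [hN]
    refine le_trans ?_ le_sup_right
    refine le_trans ?_ (le_iSup₂ (f := fun (p : ℕ × ℕ × ℕ × ℕ)
      (_ : p ∈ {p : ℕ × ℕ × ℕ × ℕ | p.1 ≤ p.2.1 ∧ p.2.1 ≤ p.2.2.1 ∧ p.2.2.1 ≤ p.2.2.2 ∧
        p.1 + p.2.1 + p.2.2.1 + p.2.2.2 = k}) =>
      Od p.1 * Od p.2.1 * Od p.2.2.1 * Od p.2.2.2) (a, b, c, d) ⟨hab, hbc, hcd, habcd⟩)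
    simp only
    rw [hOd a ha, hOd b hb, hOd c hc, hOd d hd]
  have g2g2' : ∀ a b, a ≤ b → a + b = k → G 2 a * G 2 b ≤ N := by
    intro a b hab habk
    rw [hN]
    refine le_trans ?_ (le_trans le_sup_right le_sup_left)
    refine le_trans ?_ (le_iSup₂ (f := fun (i : ℕ) (_ : i ∈ {i | 2 * i ≤ k}) =>
      G 2 i * G 2 (k - i)) a (show 2 * a ≤ k by omega))
    rw [show k - a = b by omega]
  refine SpanAux.main hyp (fun j => (hG 2 j le_rfl).1) k hk N ?_ ?_ ?_ ?_ ?_ ?_
  · rw [hN]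
    exact le_sup_left.trans (le_sup_left.trans (le_sup_left.trans (le_sup_left.trans le_sup_left)))
  · rw [hN]
    exact le_sup_right.trans
      (le_sup_left.trans (le_sup_left.trans (le_sup_left.trans le_sup_left)))
  · intro i j hi hij
    rw [hN]
    refine le_trans ?_ (le_sup_right.trans (le_sup_left.trans (le_sup_left.trans le_sup_left)))
    refine le_trans ?_ (le_iSup₂ (f := fun (i : ℕ) (_ : i ∈ {i | i ≤ k}) =>
      Od i * G 3 (k - i)) i (show i ≤ k by omega))
    rw [hOd i hi, show k - i = j by omega]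
  · intro a b c ha hb habc
    rcases le_total a b with hab | hab
    · exact oog2' a b c hab ha hb habc
    · rw [mul_comm (Fil 1 a)]
      exact oog2' b a c hab hb ha (by omega)
  · intro a b hab
    rcases le_total a b with h | h
    · exact g2g2' a b h hab
    · rw [mul_comm (G 2 a)]
      exact g2g2' b a h (by omega)
  · intro a b c d ha hb hc hd habcd
    -- sort the four indices
    have key : ∃ a' b' c' d' : ℕ, a' ≤ b' ∧ b' ≤ c' ∧ c' ≤ d' ∧ Odd a' ∧ Odd b' ∧ Odd c' ∧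
        Odd d' ∧ a' + b' + c' + d' = k ∧
        Fil 1 a * Fil 1 b * Fil 1 c * Fil 1 d = Fil 1 a' * Fil 1 b' * Fil 1 c' * Fil 1 d' := by
      rcases le_total a b with h1 | h1 <;> rcases le_total a c with h2 | h2 <;>
      rcases le_total a d with h3 | h3 <;> rcases le_total b c with h4 | h4 <;>
      rcases le_total b d with h5 | h5 <;> rcases le_total c d with h6 | h6 <;>
      first
        | exact ⟨a, b, c, d,
            by assumption, by assumption, by assumption, ha, hb, hc, hd, by omega, by ring⟩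
        | exact ⟨a, b, d, c,
            by assumption, by assumption, by assumption, ha, hb, hd, hc, by omega, by ring⟩
        | exact ⟨a, c, b, d,
            by assumption, by assumption, by assumption, ha, hc, hb, hd, by omega, by ring⟩
        | exact ⟨a, c, d, b,
            by assumption, by assumption, by assumption, ha, hc, hd, hb, by omega, by ring⟩
        | exact ⟨a, d, b, c,
            by assumption, by assumption, by assumption, ha, hd, hb, hc, by omega, by ring⟩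
        | exact ⟨a, d, c, b,
            by assumption, by assumption, by assumption, ha, hd, hc, hb, by omega, by ring⟩
        | exact ⟨b, a, c, d,
            by assumption, by assumption, by assumption, hb, ha, hc, hd, by omega, by ring⟩
        | exact ⟨b, a, d, c,
            by assumption, by assumption, by assumption, hb, ha, hd, hc, by omega, by ring⟩
        | exact ⟨b, c, a, d,
            by assumption, by assumption, by assumption, hb, hc, ha, hd, by omega, by ring⟩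
        | exact ⟨b, c, d, a,
            by assumption, by assumption, by assumption, hb, hc, hd, ha, by omega, by ring⟩
        | exact ⟨b, d, a, c,
            by assumption, by assumption, by assumption, hb, hd, ha, hc, by omega, by ring⟩
        | exact ⟨b, d, c, a,
            by assumption, by assumption, by assumption, hb, hd, hc, ha, by omega, by ring⟩
        | exact ⟨c, a, b, d,
            by assumption, by assumption, by assumption, hc, ha, hb, hd, by omega, by ring⟩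
        | exact ⟨c, a, d, b,
            by assumption, by assumption, by assumption, hc, ha, hd, hb, by omega, by ring⟩
        | exact ⟨c, b, a, d,
            by assumption, by assumption, by assumption, hc, hb, ha, hd, by omega, by ring⟩
        | exact ⟨c, b, d, a,
            by assumption, by assumption, by assumption, hc, hb, hd, ha, by omega, by ring⟩
        | exact ⟨c, d, a, b,
            by assumption, by assumption, by assumption, hc, hd, ha, hb, by omega, by ring⟩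
        | exact ⟨c, d, b, a,
            by assumption, by assumption, by assumption, hc, hd, hb, ha, by omega, by ring⟩
        | exact ⟨d, a, b, c,
            by assumption, by assumption, by assumption, hd, ha, hb, hc, by omega, by ring⟩
        | exact ⟨d, a, c, b,
            by assumption, by assumption, by assumption, hd, ha, hc, hb, by omega, by ring⟩
        | exact ⟨d, b, a, c,
            by assumption, by assumption, by assumption, hd, hb, ha, hc, by omega, by ring⟩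
        | exact ⟨d, b, c, a,
            by assumption, by assumption, by assumption, hd, hb, hc, ha, by omega, by ring⟩
        | exact ⟨d, c, a, b,
            by assumption, by assumption, by assumption, hd, hc, ha, hb, by omega, by ring⟩
        | exact ⟨d, c, b, a,
            by assumption, by assumption, by assumption, hd, hc, hb, ha, by omega, by ring⟩
    obtain ⟨a', b', c', d', h1, h2, h3, h4, h5, h6, h7, h8, h9⟩ := key
    rw [h9]
    exact oooo' a' b' c' d' h1 h2 h3 h4 h5 h6 h7 h8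

end Pool.Agent.H492.RZ
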