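import Pool.Agent.H492.RZ.SNumPf
import Pool.Agent.H492.RZ.SOdd23
import Pool.Agent.H492.RZ.SSepEPf
import Pool.Agent.H492.RZ.SIndPf
import Pool.Agent.H492.RZ.SNonPf
import Pool.Agent.H492.RZ.RegFil
import Pool.Agent.H492.RZ.SMulPf
import Pool.Agent.H492.RZ.SOnePf
import Pool.Agent.H492.RZ.StarPf
import Pool.Agent.H492.RZ.SStufPf
import Pool.Agent.H492.RZ.SDimFourPf
import Pool.Agent.H492.RZ.Span
import Pool.Agent.H492.RZ.SAbsPf
import Pool.Agent.H492.UB.SOddPf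
import Pool.Agent.H492.UB.Final

/-!
# The depth four part of the real multiple zeta values
-/

set_option autoImplicit false

namespace Pool.Agent.H492.RZ

open Module

theorem sIndT : SInd := sInd sMul sRegFil (sStuf sMul sRegFil) sNon sAbs

/-- the dimension in terms of the dimensions of the spaces `W` -/
theorem dim_four (k : ℕ) (hk : Even k) : finrank ℚ (grZ 4 k) ≤ bnd (dW 2) (dW 3) (dW 4) k :=
  sDimFour (sFilMul sMul) sOne sSpan sIndT sOdd2 sOdd3 Pool.Agent.H492.UB.sOdd k hk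

/-- the asymptotic form -/
theorem dim_four_asymp (a2 a3 a4 : ℝ) (h2 : 0 ≤ a2) (h3 : 0 ≤ a3) (h4 : 0 ≤ a4)
    (b2 : ∃ C : ℝ, ∀ e : ℕ, (finrank ℚ (Pool.Agent.H492.UB.W ℚ 2 e) : ℝ) ≤ a2 * e + C)
    (b3 : ∃ C : ℝ, ∀ e : ℕ, (finrank ℚ (Pool.Agent.H492.UB.W ℚ 3 e) : ℝ) ≤ a3 * e ^ 2 + C * (e + 1))
    (b4 : ∃ C : ℝ, ∀ e : ℕ, (finrank ℚ (Pool.Agent.H492.UB.W ℚ 4 e) : ℝ) ≤
      a4 * e ^ 3 + C * (e ^ 2 + 1)) :
    ∃ C : ℝ, ∀ k : ℕ, Even k → (finrank ℚ (grZ 4 k) : ℝ) ≤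
      (1 / 1152 + a2 / 48 + a2 ^ 2 / 24 + a3 / 6 + a4) * k ^ 3 + C * (k ^ 2 + 1) := by
  obtain ⟨C2, b2⟩ := b2
  obtain ⟨C3, b3⟩ := b3
  obtain ⟨C4, b4⟩ := b4
  set C : ℝ := max (max (max C2 C3) C4) 0 with hC
  have hC0 : 0 ≤ C := le_max_right _ _
  have hC2 : C2 ≤ C := (le_max_left _ _).trans ((le_max_left _ _).trans (le_max_left _ _))
  have hC3 : C3 ≤ C := (le_max_right _ _).trans ((le_max_left _ _).trans (le_max_left _ _))
  have hC4 : C4 ≤ C := (le_max_right _ _).trans (le_max_left _ _)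
  have key : ∀ (r k : ℕ) (hrk : r < k), ((k - r : ℕ) : ℝ) ≤ k := fun r k hrk => by
    exact_mod_cast Nat.sub_le k r
  have e2 : ∀ k, (dW 2 k : ℝ) ≤ a2 * k + C := by
    intro k
    unfold dW
    split_ifs with h
    · have h5 := key 2 k h
      have h6 := b2 (k - 2)
      nlinarith [mul_le_mul_of_nonneg_left h5 h2]
    · push_cast
      positivity
  have e2' : ∀ k, Odd k → dW 2 k = 0 := by
    intro k hk
    unfold dW
    split_ifs with h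
    · have h5 : Odd (k - 2) := by
        obtain ⟨m, rfl⟩ := hk
        exact ⟨m - 1, by omega⟩
      rw [sOdd2 (k - 2) h5]
      exact finrank_bot ℚ _
    · rfl
  have e3 : ∀ k, (dW 3 k : ℝ) ≤ a3 * k ^ 2 + C * (k + 1) := by
    intro k
    unfold dW
    split_ifs with h
    · have h5 := key 3 k h
      have h6 := b3 (k - 3)
      have h7 : ((k - 3 : ℕ) : ℝ) ^ 2 ≤ (k : ℝ) ^ 2 := by gcongr
      have h8 : C3 * (((k - 3 : ℕ) : ℝ) + 1) ≤ C * (k + 1) := by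
        have : (0 : ℝ) ≤ ((k - 3 : ℕ) : ℝ) := Nat.cast_nonneg _
        calc C3 * (((k - 3 : ℕ) : ℝ) + 1) ≤ C * (((k - 3 : ℕ) : ℝ) + 1) := by gcongr
          _ ≤ C * (k + 1) := by gcongr
      nlinarith [mul_le_mul_of_nonneg_left h7 h3]
    · push_cast
      positivity
  have e4 : ∀ k, (dW 4 k : ℝ) ≤ a4 * k ^ 3 + C * (k ^ 2 + 1) := by
    intro k
    unfold dW
    split_ifs with h
    · have h5 := key 4 k h
      have h6 := b4 (k - 4)
      have h0 : (0 : ℝ) ≤ ((k - 4 : ℕ) : ℝ) := Nat.cast_nonneg _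
      have h7 : ((k - 4 : ℕ) : ℝ) ^ 3 ≤ (k : ℝ) ^ 3 := by gcongr
      have h8 : C4 * (((k - 4 : ℕ) : ℝ) ^ 2 + 1) ≤ C * (k ^ 2 + 1) := by
        calc C4 * (((k - 4 : ℕ) : ℝ) ^ 2 + 1) ≤ C * (((k - 4 : ℕ) : ℝ) ^ 2 + 1) := by gcongr
          _ ≤ C * (k ^ 2 + 1) := by gcongr
      nlinarith [mul_le_mul_of_nonneg_left h7 h4]
    · push_cast
      positivity
  obtain ⟨C', h⟩ := sNum (dW 2) (dW 3) (dW 4) a2 a3 a4 C h2 h3 h4 hC0 e2 e2' e3 e4
  refine ⟨C', fun k hk => le_trans ?_ (h k hk)⟩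
  exact_mod_cast dim_four k hk

/-- reduction modulo two in depth four -/
theorem ls4W : ∃ C : ℝ, ∀ e : ℕ, (finrank ℚ (Pool.Agent.H492.UB.W ℚ 4 e) : ℝ) ≤
    (1 / 360) * e ^ 3 + C * (e ^ 2 + 1) := by
  have h : ∀ e : ℕ, 60 * finrank ℚ (Pool.Agent.H492.UB.W ℚ 4 e) ≤ (e + 230).choose 3 := fun e => by
    have h2 := Pool.Agent.H492.UB.sMod Pool.Agent.H492.UB.sLattice Pool.Agent.H492.UB.sTransfer 4 e
    have h3 := Pool.Agent.H492.UB.sCount 4 227 (by omega) Pool.Agent.H492.UB.sSep.1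
      Pool.Agent.H492.UB.star4 Pool.Agent.H492.UB.sDim Pool.Agent.H492.UB.sCard e
    exact (Nat.mul_le_mul_left _ h2).trans h3
  refine ⟨40000, fun e => ?_⟩
  have h1 := h e
  have h2 : (e + 230).choose 3 * 6 = (e + 230) * (e + 229) * (e + 228) := by
    have := Nat.descFactorial_eq_factorial_mul_choose (e + 230) 3
    simp only [Nat.descFactorial_succ, Nat.descFactorial_zero, Nat.factorial] at this
    have e1 : e + 230 - 2 = e + 228 := by omega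
    have e2 : e + 230 - 1 = e + 229 := by omega
    have e3 : e + 230 - 0 = e + 230 := by omega
    rw [e1, e2, e3] at this
    nlinarith
  have h3 : (360 : ℝ) * finrank ℚ (Pool.Agent.H492.UB.W ℚ 4 e) ≤
      ((e : ℝ) + 230) * (e + 229) * (e + 228) := by
    have h4 : 360 * finrank ℚ (Pool.Agent.H492.UB.W ℚ 4 e) ≤ (e + 230) * (e + 229) * (e + 228) := by
      rw [← h2]
      omega
    exact_mod_cast h4
  have h5 : (0 : ℝ) ≤ e := Nat.cast_nonneg _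
  have h6 : ((e : ℝ) + 230) * (e + 229) * (e + 228) = e ^ 3 + 687 * e ^ 2 + 157322 * e + 12008760 := by
    ring
  rw [h6] at h3
  clear h h1 h2 h6
  have h7 : (2 : ℝ) * e ≤ e ^ 2 + 1 := by nlinarith [sq_nonneg ((e : ℝ) - 1)]
  generalize (finrank ℚ (Pool.Agent.H492.UB.W ℚ 4 e) : ℝ) = y at h3 ⊢
  generalize (e : ℝ) = x at h3 h5 h7 ⊢
  have h8 : 0 ≤ x ^ 2 := sq_nonneg x
  linarith

/-- **Depth four.** -/
theorem depth_four_two : ∃ C : ℝ, ∀ k : ℕ, Even k → (finrank ℚ (grZ 4 k) : ℝ) ≤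
    (1 / 1152 + (1 / 6) / 48 + (1 / 6) ^ 2 / 24 + (1 / 42) / 6 + 1 / 360) * k ^ 3 + C * (k ^ 2 + 1) :=
  dim_four_asymp (1 / 6) (1 / 42) (1 / 360) (by norm_num) (by norm_num) (by norm_num)
    (ls2W sSepE) (ls3W sSepE) ls4W

end Pool.Agent.H492.RZ
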