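import Pool.Agent.H492.RZ.Final2
import Pool.Agent.H492.UT.Final
import Pool.Agent.H492.CT.Final

/-!
# The depth four part of the real multiple zeta values: reduction modulo three
-/

set_option autoImplicit false

namespace Pool.Agent.H492.RZ

open Module

/-- reduction modulo three in depth four -/
theorem ls4W3 : ∃ C : ℝ, ∀ e : ℕ, (finrank ℚ (Pool.Agent.H492.UB.W ℚ 4 e) : ℝ) ≤
    (373 / 179712) * e ^ 3 + C * (e ^ 2 + 1) := by
  refine ⟨100000000, fun e => ?_⟩
  have h1 := Pool.Agent.H492.CT.w4_le e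
  have h2 : (e + 3246).choose 3 * 6 = (e + 3246) * (e + 3245) * (e + 3244) := by
    have := Nat.descFactorial_eq_factorial_mul_choose (e + 3246) 3
    simp only [Nat.descFactorial_succ, Nat.descFactorial_zero, Nat.factorial] at this
    have e1 : e + 3246 - 2 = e + 3244 := by omega
    have e2 : e + 3246 - 1 = e + 3245 := by omega
    have e3 : e + 3246 - 0 = e + 3246 := by omega
    rw [e1, e2, e3] at this
    nlinarith
  have h3 : (179712 : ℝ) * finrank ℚ (Pool.Agent.H492.UB.W ℚ 4 e) ≤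
      373 * (((e : ℝ) + 3246) * (e + 3245) * (e + 3244)) := by
    have h4 : 179712 * finrank ℚ (Pool.Agent.H492.UB.W ℚ 4 e) ≤
        373 * ((e + 3246) * (e + 3245) * (e + 3244)) := by
      rw [← h2]
      omega
    exact_mod_cast h4
  have h5 : (0 : ℝ) ≤ e := Nat.cast_nonneg _
  clear h1 h2
  have h6 : ((e : ℝ) + 3246) * (e + 3245) * (e + 3244) =
      e ^ 3 + 9735 * e ^ 2 + 31590074 * e + 34169927880 := by
    ring
  rw [h6] at h3
  have h7 : (2 : ℝ) * e ≤ e ^ 2 + 1 := by nlinarith [sq_nonneg ((e : ℝ) - 1)]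
  clear h6
  generalize (finrank ℚ (Pool.Agent.H492.UB.W ℚ 4 e) : ℝ) = y at h3 ⊢
  generalize (e : ℝ) = x at h3 h5 h7 ⊢
  have h8 : 0 ≤ x ^ 2 := sq_nonneg x
  linarith

/-- **Depth four.** -/
theorem depth_four_three : ∃ C : ℝ, ∀ k : ℕ, Even k → (finrank ℚ (grZ 4 k) : ℝ) ≤
    (1 / 1152 + (1 / 6) / 48 + (1 / 6) ^ 2 / 24 + (235 / 11232) / 6 + 373 / 179712) * k ^ 3 +
      C * (k ^ 2 + 1) :=
  dim_four_asymp (1 / 6) (235 / 11232) (373 / 179712) (by norm_num) (by norm_num) (by norm_num)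
    (ls2W sSepE) Pool.Agent.H492.UT.ls3W ls4W3

end Pool.Agent.H492.RZ
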