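import Pool.Agent.H492.RZ.Stm

/-!
# RZ: the asymptotic form of the bound (`SNum`)
-/

set_option autoImplicit false

namespace Pool.Agent.H492.RZ

namespace H79Num

/-- sums along an arithmetic progression -/
noncomputable def SS (s : ℕ) (g : ℕ → ℝ) (m : ℕ) : ℝ := ∑ y ∈ Finset.range (m / s + 1), g (m - s * y)

theorem SS_add {s : ℕ} (hs : 0 < s) (g : ℕ → ℝ) (m : ℕ) : SS s g (m + s) = g (m + s) + SS s g m := by
  unfold SS
  rw [Nat.add_div_right m hs, Finset.sum_range_succ', add_comm]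
  congr 1
  refine Finset.sum_congr rfl fun y _ => ?_
  congr 1
  rw [Nat.mul_add, Nat.mul_one]
  omega

theorem SS_le {s : ℕ} (hs : 0 < s) (g B : ℕ → ℝ) (h0 : ∀ m < s, g m ≤ B m)
    (h1 : ∀ m, g (m + s) + B m ≤ B (m + s)) : ∀ m, SS s g m ≤ B m := by
  intro m
  induction m using Nat.strong_induction_on with
  | _ m ih =>
    by_cases hm : m < s
    · have h2 : SS s g m = g m := by
        unfold SS
        rw [Nat.div_eq_of_lt hm]
        simp
      rw [h2]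
      exact h0 m hm
    · obtain ⟨m', rfl⟩ : ∃ m', m = m' + s := ⟨m - s, by omega⟩
      rw [SS_add hs]
      have h2 := ih m' (by omega)
      have h3 := h1 m'
      linarith

theorem SS_mono {s : ℕ} {g g' : ℕ → ℝ} (h : ∀ m, g m ≤ g' m) (m : ℕ) : SS s g m ≤ SS s g' m :=
  Finset.sum_le_sum fun _ _ => h _

/-! ### the number of the quadruples -/

theorem two_le (m : ℕ) : SS 2 (fun _ => 1) m ≤ (m : ℝ) / 2 + 1 := by
  refine SS_le (by norm_num) _ (fun m => (m : ℝ) / 2 + 1) (fun m _ => ?_) (fun m => ?_) m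
  · have : (0 : ℝ) ≤ m := Nat.cast_nonneg m
    linarith
  · push_cast
    linarith

theorem three_le (m : ℕ) : SS 3 (SS 2 (fun _ => 1)) m ≤ (m : ℝ) ^ 2 / 12 + 3 * m / 4 + 3 / 2 := by
  refine SS_le (by norm_num) _ (fun m => (m : ℝ) ^ 2 / 12 + 3 * m / 4 + 3 / 2) (fun m _ => ?_)
    (fun m => ?_) m
  · have h1 := two_le m
    have : (0 : ℝ) ≤ m := Nat.cast_nonneg m
    nlinarith [sq_nonneg (m : ℝ)]
  · have h1 := two_le (m + 3)
    push_cast at h1 ⊢
    nlinarith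

theorem four_le (m : ℕ) : SS 4 (SS 3 (SS 2 (fun _ => 1))) m ≤
    (m : ℝ) ^ 3 / 144 + (m : ℝ) ^ 2 / 6 + m + 3 / 2 := by
  refine SS_le (by norm_num) _ (fun m => (m : ℝ) ^ 3 / 144 + (m : ℝ) ^ 2 / 6 + m + 3 / 2)
    (fun m _ => ?_) (fun m => ?_) m
  · have h1 := three_le m
    have h2 : (0 : ℝ) ≤ m := Nat.cast_nonneg m
    have h3 : (0 : ℝ) ≤ (m : ℝ) ^ 3 := by positivity
    nlinarith [sq_nonneg (m : ℝ)]
  · have h1 := three_le (m + 4)
    have h2 : (0 : ℝ) ≤ m := Nat.cast_nonneg m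
    push_cast at h1 ⊢
    nlinarith [sq_nonneg (m : ℝ)]

theorem quads_card (n : ℕ) : ((quads (2 * (n + 2))).card : ℝ) =
    SS 4 (SS 3 (SS 2 (fun _ => 1))) n := by
  set T : Finset ((_ : ℕ) × (_ : ℕ) × ℕ) := (Finset.range (n / 4 + 1)).sigma fun x =>
    (Finset.range ((n - 4 * x) / 3 + 1)).sigma fun y => Finset.range ((n - 4 * x - 3 * y) / 2 + 1)
    with hT
  have h1 : (quads (2 * (n + 2))).card = T.card := by
    refine Finset.card_nbij' (fun p => ⟨p.1 / 2, (p.2.1 - p.1) / 2, (p.2.2.1 - p.2.1) / 2⟩)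
      (fun q => (2 * q.1 + 1, 2 * q.1 + 2 * q.2.1 + 1, 2 * q.1 + 2 * q.2.1 + 2 * q.2.2 + 1,
        2 * n + 1 - 6 * q.1 - 4 * q.2.1 - 2 * q.2.2)) ?_ ?_ ?_ ?_
    · rintro ⟨a, b, c, d⟩ hp
      simp only [quads, Finset.coe_filter, Finset.mem_product, Finset.mem_range, Set.mem_ofPred_eq,
        Nat.odd_iff] at hp
      simp only [hT, Finset.mem_coe, Finset.mem_sigma, Finset.mem_range]
      omega
    · rintro ⟨x, y, z⟩ hq
      simp only [hT, Finset.mem_coe, Finset.mem_sigma, Finset.mem_range] at hq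
      simp only [quads, Finset.coe_filter, Finset.mem_product, Finset.mem_range, Set.mem_ofPred_eq,
        Nat.odd_iff]
      omega
    · rintro ⟨a, b, c, d⟩ hp
      simp only [quads, Finset.coe_filter, Finset.mem_product, Finset.mem_range, Set.mem_ofPred_eq,
        Nat.odd_iff] at hp
      simp only [Prod.mk.injEq]
      omega
    · rintro ⟨x, y, z⟩ hq
      simp only [hT, Finset.mem_coe, Finset.mem_sigma, Finset.mem_range] at hq
      simp only [Sigma.mk.injEq, heq_eq_eq]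
      omega
  rw [h1, hT, Finset.card_sigma]
  unfold SS
  push_cast
  refine Finset.sum_congr rfl fun x _ => ?_
  rw [Finset.card_sigma]
  push_cast
  refine Finset.sum_congr rfl fun y _ => ?_
  rw [Finset.card_range, Finset.sum_const, Finset.card_range, nsmul_eq_mul, mul_one]

theorem quads_le (h : ℕ) : ((quads (2 * h)).card : ℝ) ≤
    (h : ℝ) ^ 3 / 144 + (h : ℝ) ^ 2 / 6 + h + 3 / 2 := by
  have h0 : (0 : ℝ) ≤ h := Nat.cast_nonneg h
  by_cases hh : 2 ≤ h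
  · obtain ⟨n, rfl⟩ : ∃ n, h = n + 2 := ⟨h - 2, by omega⟩
    rw [quads_card]
    refine (four_le n).trans ?_
    have hn : (0 : ℝ) ≤ n := Nat.cast_nonneg n
    push_cast
    nlinarith [sq_nonneg (n : ℝ), pow_nonneg hn 3]
  · have h1 : quads (2 * h) = ∅ := by
      rw [Finset.eq_empty_iff_forall_notMem]
      rintro ⟨a, b, c, d⟩ hp
      simp only [quads, Finset.mem_filter, Finset.mem_product, Finset.mem_range,
        Nat.odd_iff] at hp
      omega
    rw [h1, Finset.card_empty, Nat.cast_zero]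
    positivity

/-! ### the sum over pairs -/

theorem pairs_eq (G : ℕ → ℝ) (n : ℕ) :
    ∑ p ∈ (Finset.range (2 * (n + 1) + 1) ×ˢ Finset.range (2 * (n + 1) + 1)).filter
      (fun p => Odd p.1 ∧ Odd p.2 ∧ p.1 ≤ p.2 ∧ p.1 + p.2 ≤ 2 * (n + 1)),
        G (2 * (n + 1) - p.1 - p.2) = SS 2 (SS 1 (fun m => G (2 * m))) n := by
  set T : Finset ((_ : ℕ) × ℕ) := (Finset.range (n / 2 + 1)).sigma fun x =>
    Finset.range ((n - 2 * x) / 1 + 1) with hT
  have h1 : ∑ p ∈ (Finset.range (2 * (n + 1) + 1) ×ˢ Finset.range (2 * (n + 1) + 1)).filter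
      (fun p => Odd p.1 ∧ Odd p.2 ∧ p.1 ≤ p.2 ∧ p.1 + p.2 ≤ 2 * (n + 1)),
        G (2 * (n + 1) - p.1 - p.2) = ∑ q ∈ T, G (2 * (n - 2 * q.1 - 1 * q.2)) := by
    refine Finset.sum_nbij' (fun p => ⟨p.1 / 2, (p.2 - p.1) / 2⟩)
      (fun q => (2 * q.1 + 1, 2 * q.1 + 2 * q.2 + 1)) ?_ ?_ ?_ ?_ ?_
    · rintro ⟨a, b⟩ hp
      simp only [Finset.mem_filter, Finset.mem_product, Finset.mem_range, Nat.odd_iff] at hp
      simp only [hT, Finset.mem_sigma, Finset.mem_range, Nat.div_one]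
      omega
    · rintro ⟨x, y⟩ hq
      simp only [hT, Finset.mem_sigma, Finset.mem_range, Nat.div_one] at hq
      simp only [Finset.mem_filter, Finset.mem_product, Finset.mem_range, Nat.odd_iff]
      omega
    · rintro ⟨a, b⟩ hp
      simp only [Finset.mem_filter, Finset.mem_product, Finset.mem_range, Nat.odd_iff] at hp
      simp only [Prod.mk.injEq]
      omega
    · rintro ⟨x, y⟩ hq
      simp only [hT, Finset.mem_sigma, Finset.mem_range, Nat.div_one] at hq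
      simp only [Sigma.mk.injEq, heq_eq_eq]
      omega
    · rintro ⟨a, b⟩ hp
      simp only [Finset.mem_filter, Finset.mem_product, Finset.mem_range, Nat.odd_iff] at hp
      congr 1
      simp only
      omega
  rw [h1, hT, Finset.sum_sigma]
  rfl

theorem pairs_le (d2 : ℕ → ℕ) (a2 C : ℝ) (ha2 : 0 ≤ a2) (hC : 0 ≤ C)
    (h2 : ∀ k, (d2 k : ℝ) ≤ a2 * k + C) (h : ℕ) :
    ∑ p ∈ (Finset.range (2 * h + 1) ×ˢ Finset.range (2 * h + 1)).filter
      (fun p => Odd p.1 ∧ Odd p.2 ∧ p.1 ≤ p.2 ∧ p.1 + p.2 ≤ 2 * h),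
        (d2 (2 * h - p.1 - p.2) : ℝ) ≤
    a2 * ((h : ℝ) ^ 3 / 6 + (h : ℝ) ^ 2 + h) + C * ((h : ℝ) ^ 2 / 4 + h + 1) := by
  have h0 : (0 : ℝ) ≤ h := Nat.cast_nonneg h
  rcases h with _ | n
  · have h1 : (Finset.range (2 * 0 + 1) ×ˢ Finset.range (2 * 0 + 1)).filter
      (fun p => Odd p.1 ∧ Odd p.2 ∧ p.1 ≤ p.2 ∧ p.1 + p.2 ≤ 2 * 0) = ∅ := by
      rw [Finset.eq_empty_iff_forall_notMem]
      rintro ⟨a, b⟩ hp
      simp only [Finset.mem_filter, Finset.mem_product, Finset.mem_range, Nat.odd_iff] at hp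
      omega
    rw [h1, Finset.sum_empty]
    positivity
  · rw [pairs_eq (fun m => (d2 m : ℝ)) n]
    have hn : (0 : ℝ) ≤ n := Nat.cast_nonneg n
    have hB1 : ∀ m, SS 1 (fun m => (d2 (2 * m) : ℝ)) m ≤ a2 * (m * (m + 1)) + C * (m + 1) := by
      intro m
      refine SS_le (by norm_num) _ (fun m => a2 * ((m : ℝ) * (m + 1)) + C * (m + 1))
        (fun m hm => ?_) (fun m => ?_) m
      · obtain rfl : m = 0 := by omega
        have h3 := h2 (2 * 0)
        push_cast at h3 ⊢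
        linarith
      · have h3 := h2 (2 * (m + 1))
        push_cast at h3 ⊢
        linarith
    have hB2 : SS 2 (SS 1 (fun m => (d2 (2 * m) : ℝ))) n ≤
        a2 * ((n : ℝ) ^ 3 / 6 + (n : ℝ) ^ 2 + n) + C * ((n : ℝ) ^ 2 / 4 + n + 1) := by
      refine SS_le (by norm_num) _
        (fun n => a2 * ((n : ℝ) ^ 3 / 6 + (n : ℝ) ^ 2 + n) + C * ((n : ℝ) ^ 2 / 4 + n + 1))
        (fun m hm => (hB1 m).trans ?_) (fun m => ?_) n
      · have h3 : m = 0 ∨ m = 1 := by omega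
        rcases h3 with rfl | rfl
        · push_cast
          linarith
        · push_cast
          linarith
      · have h3 := hB1 (m + 2)
        have h4 : (0 : ℝ) ≤ m := Nat.cast_nonneg m
        have h5 : 0 ≤ a2 * m := mul_nonneg ha2 h4
        push_cast at h3 ⊢
        nlinarith
    refine hB2.trans ?_
    push_cast
    have h5 : 0 ≤ a2 * n := mul_nonneg ha2 hn
    have h6 : 0 ≤ C * n := mul_nonneg hC hn
    have h7 : 0 ≤ a2 * n ^ 2 := by positivity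
    nlinarith

/-! ### the sum over one odd number -/

theorem odd_eq (G : ℕ → ℝ) (n : ℕ) :
    ∑ i ∈ (Finset.range (2 * (n + 1) + 1)).filter Odd, G (2 * (n + 1) - i) =
      SS 1 (fun m => G (2 * m + 1)) n := by
  unfold SS
  refine Finset.sum_nbij' (fun i => i / 2) (fun t => 2 * t + 1) ?_ ?_ ?_ ?_ ?_
  · intro i hi
    simp only [Finset.mem_filter, Finset.mem_range, Nat.odd_iff, Nat.div_one] at hi ⊢
    omega
  · intro i hi
    simp only [Finset.mem_filter, Finset.mem_range, Nat.odd_iff, Nat.div_one] at hi ⊢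
    omega
  · intro i hi
    simp only [Finset.mem_filter, Finset.mem_range, Nat.odd_iff] at hi ⊢
    omega
  · intro i hi
    omega
  · intro i hi
    simp only [Finset.mem_filter, Finset.mem_range, Nat.odd_iff] at hi
    congr 1
    omega

theorem odd_le (d3 : ℕ → ℕ) (a3 C : ℝ) (ha3 : 0 ≤ a3) (hC : 0 ≤ C)
    (h3 : ∀ k, (d3 k : ℝ) ≤ a3 * k ^ 2 + C * (k + 1)) (h : ℕ) :
    ∑ i ∈ (Finset.range (2 * h + 1)).filter Odd, (d3 (2 * h - i) : ℝ) ≤
      a3 * (4 * (h : ℝ) ^ 3 / 3) + C * (h * (h + 1)) := by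
  rcases h with _ | n
  · have h1 : (Finset.range (2 * 0 + 1)).filter Odd = ∅ := by
      rw [Finset.eq_empty_iff_forall_notMem]
      intro a ha
      simp only [Finset.mem_filter, Finset.mem_range, Nat.odd_iff] at ha
      omega
    rw [h1, Finset.sum_empty]
    simp
  · rw [odd_eq (fun m => (d3 m : ℝ)) n]
    refine (SS_le (by norm_num) _ (fun n => a3 * (4 * ((n : ℝ) + 1) ^ 3 / 3) + C * ((n + 1) * (n + 2)))
      (fun m hm => ?_) (fun m => ?_) n).trans (le_of_eq ?_)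
    · obtain rfl : m = 0 := by omega
      have h4 := h3 (2 * 0 + 1)
      push_cast at h4 ⊢
      linarith
    · have h4 := h3 (2 * (m + 1) + 1)
      have h5 : (0 : ℝ) ≤ m := Nat.cast_nonneg m
      push_cast at h4 ⊢
      nlinarith
    · push_cast
      ring

/-! ### the sum of the products -/

theorem tsum_closed (h : ℝ) (T : ℕ) : ∑ t ∈ Finset.range T, (t : ℝ) * (h - t) =
    T * (T - 1) * (3 * h - 2 * T + 1) / 6 := by
  induction T with
  | zero => simp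
  | succ T ih =>
    rw [Finset.sum_range_succ, ih]
    push_cast
    ring

theorem prod_le (d2 : ℕ → ℕ) (a2 C : ℝ) (ha2 : 0 ≤ a2) (hC : 0 ≤ C)
    (h2 : ∀ k, (d2 k : ℝ) ≤ a2 * k + C) (hodd : ∀ k, Odd k → d2 k = 0) (h : ℕ) :
    ∑ i ∈ (Finset.range (2 * h + 1)).filter (fun i => 2 * i ≤ 2 * h),
      ((d2 i : ℝ) * d2 (2 * h - i)) ≤
    4 * a2 ^ 2 * ((h : ℝ) ^ 3 / 12 + (h : ℝ) ^ 2 / 6) + (2 * h * C * a2 + C ^ 2) * (h / 2 + 1) := by
  have h0 : (0 : ℝ) ≤ h := Nat.cast_nonneg h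
  have h1 : ∑ i ∈ (Finset.range (2 * h + 1)).filter (fun i => 2 * i ≤ 2 * h),
      ((d2 i : ℝ) * d2 (2 * h - i)) =
      ∑ i ∈ ((Finset.range (2 * h + 1)).filter (fun i => 2 * i ≤ 2 * h)).filter Even,
        ((d2 i : ℝ) * d2 (2 * h - i)) := by
    symm
    apply Finset.sum_filter_of_ne
    intro i _ hne
    by_contra hcon
    apply hne
    rw [hodd i (Nat.not_even_iff_odd.1 hcon), Nat.cast_zero, zero_mul]
  have h3 : ∑ i ∈ ((Finset.range (2 * h + 1)).filter (fun i => 2 * i ≤ 2 * h)).filter Even,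
        ((d2 i : ℝ) * d2 (2 * h - i)) =
      ∑ t ∈ Finset.range (h / 2 + 1), ((d2 (2 * t) : ℝ) * d2 (2 * h - 2 * t)) := by
    refine Finset.sum_nbij' (fun i => i / 2) (fun t => 2 * t) ?_ ?_ ?_ ?_ ?_
    · intro i hi
      simp only [Finset.mem_filter, Finset.mem_range, Nat.even_iff] at hi ⊢
      omega
    · intro i hi
      simp only [Finset.mem_filter, Finset.mem_range, Nat.even_iff] at hi ⊢
      omega
    · intro i hi
      simp only [Finset.mem_filter, Finset.mem_range, Nat.even_iff] at hi ⊢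
      omega
    · intro i hi
      omega
    · intro i hi
      simp only [Finset.mem_filter, Finset.mem_range, Nat.even_iff] at hi
      have h4 : 2 * (i / 2) = i := by omega
      simp only [h4]
  rw [h1, h3]
  have h4 : ∀ t ∈ Finset.range (h / 2 + 1), ((d2 (2 * t) : ℝ) * d2 (2 * h - 2 * t)) ≤
      4 * a2 ^ 2 * (t * (h - t)) + (2 * h * C * a2 + C ^ 2) := by
    intro t ht
    rw [Finset.mem_range] at ht
    have hth : 2 * t ≤ 2 * h := by omega
    have h5 := h2 (2 * t)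
    have h6 := h2 (2 * h - 2 * t)
    rw [Nat.cast_sub hth] at h6
    push_cast at h5 h6
    have h7 : (0 : ℝ) ≤ d2 (2 * h - 2 * t) := Nat.cast_nonneg _
    have h8 : (0 : ℝ) ≤ a2 * (2 * t) + C := by positivity
    refine (mul_le_mul h5 h6 h7 h8).trans (le_of_eq ?_)
    ring
  refine (Finset.sum_le_sum h4).trans ?_
  rw [Finset.sum_add_distrib, ← Finset.mul_sum, tsum_closed, Finset.sum_const, Finset.card_range,
    nsmul_eq_mul]
  set τ := h / 2 with hτ
  have h5 : (2 : ℝ) * τ ≤ h := by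
    have : 2 * τ ≤ h := by omega
    exact_mod_cast this
  have h6 : (h : ℝ) ≤ 2 * τ + 1 := by
    have : h ≤ 2 * τ + 1 := by omega
    exact_mod_cast this
  have hτ0 : (0 : ℝ) ≤ τ := Nat.cast_nonneg τ
  push_cast
  apply add_le_add
  · apply mul_le_mul_of_nonneg_left _ (by positivity)
    have h7 : ((τ : ℝ) + 1) * (τ + 1 - 1) ≤ ((h : ℝ) / 2 + 1) * (h / 2) := by
      nlinarith
    have h8 : (0 : ℝ) ≤ ((τ : ℝ) + 1) * (τ + 1 - 1) := by
      rw [add_sub_cancel_right]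
      positivity
    have h9 : 3 * (h : ℝ) - 2 * (τ + 1) + 1 ≤ 2 * h := by linarith
    have h10 : ((τ : ℝ) + 1) * (τ + 1 - 1) * (3 * (h : ℝ) - 2 * (τ + 1) + 1) ≤
        ((h : ℝ) / 2 + 1) * (h / 2) * (2 * h) := by
      calc ((τ : ℝ) + 1) * (τ + 1 - 1) * (3 * (h : ℝ) - 2 * (τ + 1) + 1)
          ≤ ((τ : ℝ) + 1) * (τ + 1 - 1) * (2 * h) := mul_le_mul_of_nonneg_left h9 h8
        _ ≤ ((h : ℝ) / 2 + 1) * (h / 2) * (2 * h) :=
          mul_le_mul_of_nonneg_right h7 (by positivity)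
    have h11 : ((h : ℝ) / 2 + 1) * (h / 2) * (2 * h) / 6 = (h : ℝ) ^ 3 / 12 + (h : ℝ) ^ 2 / 6 := by
      ring
    rw [← h11]
    exact div_le_div_of_nonneg_right h10 (by norm_num)
  · rw [mul_comm]
    apply mul_le_mul_of_nonneg_left _ (by positivity)
    linarith

/-- the asymptotic form of the bound -/
theorem main : Pool.Agent.H492.RZ.SNum := by
  intro d2 d3 d4 a2 a3 a4 C ha2 ha3 ha4 hC h2 hodd h3 h4
  refine ⟨C + C + a2 + 2 * C + a2 ^ 2 + 2 * C * a2 + 2 * C ^ 2 + 2, fun k hk => ?_⟩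
  obtain ⟨h, rfl⟩ : ∃ h, k = 2 * h := ⟨k / 2, by rw [Nat.even_iff] at hk; omega⟩
  have h0 : (0 : ℝ) ≤ h := Nat.cast_nonneg h
  have e1 := h4 (2 * h)
  have e2 := odd_le d3 a3 C ha3 hC h3 h
  have e3 := pairs_le d2 a2 C ha2 hC h2 h
  have e4 := prod_le d2 a2 C ha2 hC h2 hodd h
  have e5 := quads_le h
  unfold bnd
  push_cast at e1 ⊢
  have f1 : C * ((h : ℝ) * (h + 1)) ≤ C * (4 * h ^ 2 + 1) := by
    apply mul_le_mul_of_nonneg_left _ hC
    nlinarith [sq_nonneg ((h : ℝ) - 1)]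
  have f2 : a2 * ((h : ℝ) ^ 2 + h) ≤ a2 * (4 * h ^ 2 + 1) := by
    apply mul_le_mul_of_nonneg_left _ ha2
    nlinarith [sq_nonneg ((h : ℝ) - 1)]
  have f3 : C * ((h : ℝ) ^ 2 / 4 + h + 1) ≤ 2 * C * (4 * h ^ 2 + 1) := by
    have : (h : ℝ) ^ 2 / 4 + h + 1 ≤ 2 * (4 * h ^ 2 + 1) := by nlinarith [sq_nonneg ((h : ℝ) - 1)]
    have := mul_le_mul_of_nonneg_left this hC
    linarith
  have f4 : 4 * a2 ^ 2 * ((h : ℝ) ^ 2 / 6) ≤ a2 ^ 2 * (4 * h ^ 2 + 1) := by
    have : (4 : ℝ) * ((h : ℝ) ^ 2 / 6) ≤ 4 * h ^ 2 + 1 := by nlinarith [sq_nonneg (h : ℝ)]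
    have := mul_le_mul_of_nonneg_left this (sq_nonneg a2)
    linarith
  have f5 : (2 * (h : ℝ) * C * a2 + C ^ 2) * (h / 2 + 1) ≤
      (2 * C * a2 + 2 * C ^ 2) * (4 * h ^ 2 + 1) := by
    have g1 : (h : ℝ) ^ 2 + 2 * h ≤ 2 * (4 * h ^ 2 + 1) := by nlinarith [sq_nonneg ((h : ℝ) - 1)]
    have g2 : (h : ℝ) / 2 + 1 ≤ 2 * (4 * h ^ 2 + 1) := by nlinarith [sq_nonneg ((h : ℝ) - 1)]
    have g3 := mul_le_mul_of_nonneg_left g1 (mul_nonneg hC ha2)
    have g4 := mul_le_mul_of_nonneg_left g2 (sq_nonneg C)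
    linarith
  have f6 : (h : ℝ) ^ 2 / 6 + h + 3 / 2 ≤ 2 * (4 * h ^ 2 + 1) := by
    nlinarith [sq_nonneg ((h : ℝ) - 1)]
  have e2' : ∑ i ∈ (Finset.range (2 * h + 1)).filter Odd, (d3 (2 * h - i) : ℝ) ≤
      a3 * (4 * (h : ℝ) ^ 3 / 3) + C * (4 * h ^ 2 + 1) := by linarith
  linarith

end H79Num

theorem sNum : SNum := H79Num.main

end Pool.Agent.H492.RZ
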