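import Pool.Agent.H492.UB.Stm3
import Pool.Graph.R_pool_sql_team_seeded_3997aac3.Q189.MV.DSh

/-!
# Statements: the depth filtration of the real multiple zeta values and linearized double shuffle polynomials

`Z`, `reg`, `word`, `index`, `shuffles`, `stuffles`, `InH0`, `InH1`, `element`, `mzv` are the definitions of the
library module `Q187.ZD.DS`: words are lists of booleans, `x = false`, `y = true`, and
`Z (x^(k₁-1) y ⋯ x^(k_r-1) y) = ζ(k₁, …, k_r)` with `k₁` belonging to the largest variable; `reg` is the shuffle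
regularization on the words ending in `y`. `Z_element` (in `Q189.MV.DSh`) says `Z (element u v) = 0` for `InH1 u`, `InH0 v`.

`UB.sh`, `UB.ps`, `UB.BA`, `UB.W` are defined in `Pool.Agent.H492.UB.Defs`.
-/

set_option autoImplicit false

namespace Pool.Agent.H492.RZ

open Module
open Pool.Agent.H492.UB (sh ps BA ev)
open Pool.Agent.Q187.ZD.DS (Z InH0 InH1 total shuffles stuffles index word reg element mzv)

/-- admissible indices -/
def IsAdm (s : List ℕ) : Prop := (∀ a ∈ s, 1 ≤ a) ∧ s.head? ≠ some 1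

/-- the span of the multiple zeta values of weight `k` and depth at most `r` -/
noncomputable def Fil (r k : ℕ) : Submodule ℚ ℝ :=
  Submodule.span ℚ {x | ∃ s : List ℕ, IsAdm s ∧ s.sum = k ∧ s.length ≤ r ∧ x = mzv s}

/-- the products of weight `k` and depth at most `r` of two multiple zeta values of positive depths -/
noncomputable def Prd (r k : ℕ) : Submodule ℚ ℝ :=
  Submodule.span ℚ {x | ∃ r₁ r₂ k₁ k₂ : ℕ, 1 ≤ r₁ ∧ 1 ≤ r₂ ∧ r₁ + r₂ = r ∧ k₁ + k₂ = k ∧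
    ∃ y ∈ Fil r₁ k₁, ∃ z ∈ Fil r₂ k₂, x = y * z}

/-- the value of the regularization of a word -/
noncomputable def zr (w : List Bool) : ℝ := Z (reg (Finsupp.single w 1))

/-- the regularized values of the shuffle product -/
def SMul : Prop := ∀ u v : List Bool, InH1 u → InH1 v →
  ((shuffles u v).map zr).sum = zr u * zr v

/-- the regularized values have the right weight and depth -/
def SRegFil : Prop := ∀ w : List Bool, InH1 w → zr w ∈ Fil (w.count true) w.length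

/-- products -/
def SFilMul : Prop := ∀ r₁ r₂ k₁ k₂ : ℕ, Fil r₁ k₁ * Fil r₂ k₂ ≤ Fil (r₁ + r₂) (k₁ + k₂)

/-- the stuffle relations modulo products and smaller depth, one of the two indices being admissible -/
def SStuf : Prop := ∀ u v : List ℕ, u ≠ [] → v ≠ [] → (∀ a ∈ u ++ v, 1 ≤ a) → v.head? ≠ some 1 →
  ((sh u v).map fun w => zr (word w)).sum ∈
    Fil (u.length + v.length - 1) (u.sum + v.sum) ⊔ Prd (u.length + v.length) (u.sum + v.sum)

/-- the shuffle relations for pairs of words the second of which does not begin with `a` imply all of them -/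
def SNon : Prop := ∀ (α M : Type) [AddCommGroup M] [Module ℚ M] (a : α) (G : List α → M) (r : ℕ),
  G (List.replicate r a) = 0 →
  (∀ u v : List α, u ≠ [] → v ≠ [] → v.head? ≠ some a → u.length + v.length = r →
    ((sh u v).map G).sum = 0) →
  ∀ u v : List α, u ≠ [] → v ≠ [] → u.length + v.length = r → ((sh u v).map G).sum = 0

open MvPolynomial in
/-- the polynomial of a function on words -/
noncomputable def pol (r e : ℕ) (F : List Bool → ℚ) : MvPolynomial (Fin r) ℚ :=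
  ∑ n ∈ Finset.Nat.antidiagonalTuple r e,
    C (F (word ((List.ofFn n).map (· + 1)).reverse)) * ∏ i, X i ^ n i

/-- the two families of relations give the linearized double shuffle relations of the polynomial -/
def SAbs : Prop := ∀ (r e : ℕ) (F : List Bool → ℚ), 2 ≤ r →
  (∀ u v : List Bool, u.getLast? = some true → v.getLast? = some true → (u ++ v).count true = r →
    (u ++ v).length = e + r → ((shuffles u v).map F).sum = 0) →
  (∀ u v : List ℕ, u ≠ [] → v ≠ [] → (∀ a ∈ u ++ v, 1 ≤ a) → u.length + v.length = r →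
    u.sum + v.sum = e + r → ((sh u v).map fun w => F (word w)).sum = 0) →
  pol r e F ∈ Pool.Agent.H492.UB.W ℚ r e

/-- multiple zeta values of weight `k` and depth `r` modulo smaller depth and products -/
abbrev Ind (r k : ℕ) : Type := Fil r k ⧸ (Fil (r - 1) k ⊔ Prd r k).comap (Fil r k).subtype

/-- the number of indecomposable values -/
def SInd : Prop := ∀ r k : ℕ, 2 ≤ r → r < k →
  finrank ℚ (Ind r k) ≤ finrank ℚ (Pool.Agent.H492.UB.W ℚ r (k - r))

/-- `W ℚ r e` is zero for odd `e` in depths two and three -/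
def SOdd2 : Prop := ∀ e : ℕ, Odd e → Pool.Agent.H492.UB.W ℚ 2 e = ⊥
def SOdd3 : Prop := ∀ e : ℕ, Odd e → Pool.Agent.H492.UB.W ℚ 3 e = ⊥

/-- depth one: the values of weight `k` -/
def SOne : Prop := (∀ k : ℕ, finrank ℚ (Fil 1 k) ≤ 1) ∧
  ∀ i j : ℕ, Even i → Even j → Fil 1 i * Fil 1 j ≤ Fil 1 (i + j)

/-- the part of depth one in odd weights -/
noncomputable def Od (k : ℕ) : Submodule ℚ ℝ := if Odd k then Fil 1 k else ⊥

/-- The structure of depth four in even weights: `G r k` are complements. -/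
def SSpan : Prop := SFilMul → SOne → ∀ G : ℕ → ℕ → Submodule ℚ ℝ,
  (∀ r k, 2 ≤ r → G r k ≤ Fil r k ∧ Fil r k ≤ Fil (r - 1) k ⊔ Prd r k ⊔ G r k) →
  (∀ r k, 2 ≤ r → r ≤ 4 → ¬ (Even r ↔ Even k) → G r k = ⊥) →
  ∀ k, Even k → Fil 4 k ≤ Fil 3 k ⊔ G 4 k ⊔
    (⨆ i ∈ {i | i ≤ k}, Od i * G 3 (k - i)) ⊔
    (⨆ p ∈ {p : ℕ × ℕ | p.1 ≤ p.2 ∧ p.1 + p.2 ≤ k}, Od p.1 * Od p.2 * G 2 (k - p.1 - p.2)) ⊔
    (⨆ i ∈ {i | 2 * i ≤ k}, G 2 i * G 2 (k - i)) ⊔
    (⨆ p ∈ {p : ℕ × ℕ × ℕ × ℕ | p.1 ≤ p.2.1 ∧ p.2.1 ≤ p.2.2.1 ∧ p.2.2.1 ≤ p.2.2.2 ∧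
      p.1 + p.2.1 + p.2.2.1 + p.2.2.2 = k}, Od p.1 * Od p.2.1 * Od p.2.2.1 * Od p.2.2.2)

/-- the multiple zeta values of weight `k` and depth `r` modulo those of smaller depth -/
abbrev grZ (r k : ℕ) : Type := Fil r k ⧸ (Fil (r - 1) k).comap (Fil r k).subtype

/-- the dimension of `W ℚ r (k - r)`, for `r < k` -/
noncomputable def dW (r k : ℕ) : ℕ :=
  if r < k then finrank ℚ (Pool.Agent.H492.UB.W ℚ r (k - r)) else 0

/-- the odd quadruples with sum `k` -/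
def quads (k : ℕ) : Finset (ℕ × ℕ × ℕ × ℕ) :=
  (Finset.range (k + 1) ×ˢ Finset.range (k + 1) ×ˢ Finset.range (k + 1) ×ˢ Finset.range (k + 1)).filter
    fun p => (Odd p.1 ∧ Odd p.2.1 ∧ Odd p.2.2.1 ∧ Odd p.2.2.2) ∧
      (p.1 ≤ p.2.1 ∧ p.2.1 ≤ p.2.2.1 ∧ p.2.2.1 ≤ p.2.2.2) ∧ p.1 + p.2.1 + p.2.2.1 + p.2.2.2 = k

/-- the bound for the dimension -/
def bnd (d2 d3 d4 : ℕ → ℕ) (k : ℕ) : ℕ :=
  d4 k + ∑ i ∈ (Finset.range (k + 1)).filter Odd, d3 (k - i) +
    ∑ p ∈ (Finset.range (k + 1) ×ˢ Finset.range (k + 1)).filter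
      (fun p => Odd p.1 ∧ Odd p.2 ∧ p.1 ≤ p.2 ∧ p.1 + p.2 ≤ k), d2 (k - p.1 - p.2) +
    ∑ i ∈ (Finset.range (k + 1)).filter (fun i => 2 * i ≤ k), d2 i * d2 (k - i) + (quads k).card

/-- the dimension of the depth four part in even weights -/
def SDimFour : Prop := SFilMul → SOne → SSpan → SInd → SOdd2 → SOdd3 → Pool.Agent.H492.UB.SOdd →
  ∀ k, Even k → finrank ℚ (grZ 4 k) ≤ bnd (dW 2) (dW 3) (dW 4) k

/-- the asymptotic form of the bound -/
def SNum : Prop := ∀ (d2 d3 d4 : ℕ → ℕ) (a2 a3 a4 C : ℝ), 0 ≤ a2 → 0 ≤ a3 → 0 ≤ a4 → 0 ≤ C →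
  (∀ k, (d2 k : ℝ) ≤ a2 * k + C) → (∀ k, Odd k → d2 k = 0) →
  (∀ k, (d3 k : ℝ) ≤ a3 * k ^ 2 + C * (k + 1)) →
  (∀ k, (d4 k : ℝ) ≤ a4 * k ^ 3 + C * (k ^ 2 + 1)) →
  ∃ C' : ℝ, ∀ k : ℕ, Even k → (bnd d2 d3 d4 k : ℝ) ≤
    (1 / 1152 + a2 / 48 + a2 ^ 2 / 24 + a3 / 6 + a4) * k ^ 3 + C' * (k ^ 2 + 1)

/-- polynomials which separate the bases, in some degree -/
def SSepE : Prop := ∀ r : ℕ, 1 ≤ r → ∃ κ : ℕ, Pool.Agent.H492.UB.Sep r κ

end Pool.Agent.H492.RZ
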